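import Mathlib

/-!
# Intersections of ellipsoidal cylinders: coordinates
-/

set_option autoImplicit false

namespace Pool.Agent.W5h33.KQ

open Module
open scoped InnerProductSpace

variable {n N : ℕ} {d : Fin N → ℕ}

/-- the intersection of the kernels of all maps but one -/
def cm (P : ∀ i, EuclideanSpace ℝ (Fin n) →ₗ[ℝ] EuclideanSpace ℝ (Fin (d i))) (i : Fin N) :
    Submodule ℝ (EuclideanSpace ℝ (Fin n)) := ⨅ (j : Fin N) (_ : j ≠ i), LinearMap.ker (P j)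

variable (P : ∀ i, EuclideanSpace ℝ (Fin n) →ₗ[ℝ] EuclideanSpace ℝ (Fin (d i)))

theorem mem_cm {i : Fin N} {x : EuclideanSpace ℝ (Fin n)} :
    x ∈ cm P i ↔ ∀ j, j ≠ i → P j x = 0 := by
  unfold cm
  simp only [Submodule.mem_iInf, LinearMap.mem_ker]

/-- the image of `cm P i` -/
noncomputable def Ai (i : Fin N) : Submodule ℝ (EuclideanSpace ℝ (Fin (d i))) :=
  LinearMap.range ((P i).domRestrict (cm P i))

theorem inj_cm (hk : ∀ x, (∀ i, P i x = 0) → x = 0) (i : Fin N) :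
    Function.Injective ((P i).domRestrict (cm P i)) := by
  rw [injective_iff_map_eq_zero]
  intro x hx
  have h1 : P i x = 0 := hx
  have h2 : (x : EuclideanSpace ℝ (Fin n)) = 0 := by
    refine hk x fun j => ?_
    rcases eq_or_ne j i with h | h
    · subst h; exact h1
    · exact (mem_cm P).1 x.2 j h
  exact Subtype.ext h2

theorem exists_s (hk : ∀ x, (∀ i, P i x = 0) → x = 0) (i : Fin N) :
    finrank ℝ (Ai P i) = finrank ℝ (cm P i) ∧
    ∃ s : Ai P i →ₗ[ℝ] EuclideanSpace ℝ (Fin n), (∀ a, P i (s a) = a) ∧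
      ∀ a j, j ≠ i → P j (s a) = 0 := by
  let g : cm P i ≃ₗ[ℝ] Ai P i := LinearEquiv.ofInjective _ (inj_cm P hk i)
  refine ⟨(LinearEquiv.finrank_eq g).symm, (cm P i).subtype ∘ₗ g.symm.toLinearMap,
    fun a => ?_, fun a j hj => ?_⟩
  · have h1 : g (g.symm a) = a := g.apply_symm_apply a
    exact congrArg Subtype.val h1
  · exact (mem_cm P).1 (g.symm a).2 j hj

theorem cyl_rep (hk : ∀ x, (∀ i, P i x = 0) → x = 0) :
    ∃ (m : ℕ) (k b : Fin N → ℕ)
      (e : ((∀ i, EuclideanSpace ℝ (Fin (k i))) × EuclideanSpace ℝ (Fin m)) ≃ₗ[ℝ]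
        EuclideanSpace ℝ (Fin n))
      (Q : ∀ i, EuclideanSpace ℝ (Fin m) →ₗ[ℝ] EuclideanSpace ℝ (Fin (b i))),
      (∀ i, k i = finrank ℝ (cm P i)) ∧
      (∀ i, b i + k i ≤ finrank ℝ (LinearMap.range (P i))) ∧ ∀ i z, ‖P i (e z)‖ ^ 2 = ‖z.1 i‖ ^ 2 + ‖Q i z.2‖ ^ 2 := by
  classical
  choose hf s hs1 hs2 using exists_s P hk
  obtain ⟨S, hS⟩ : ∃ S : (∀ i, Ai P i) →ₗ[ℝ] EuclideanSpace ℝ (Fin n), ∀ a, S a = ∑ i, s i (a i) :=
    ⟨∑ i, (s i) ∘ₗ (LinearMap.proj i), fun a => by simp⟩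
  have hPS : ∀ a i, P i (S a) = (a i : EuclideanSpace ℝ (Fin (d i))) := by
    intro a i
    rw [hS, map_sum, Finset.sum_eq_single i]
    · exact hs1 i (a i)
    · intro j _ hj
      exact hs2 j (a j) i hj.symm
    · intro h
      exact absurd (Finset.mem_univ i) h
  obtain ⟨L, hL⟩ : ∃ L : EuclideanSpace ℝ (Fin n) →ₗ[ℝ] (∀ i, Ai P i),
      ∀ x i, L x i = (Ai P i).orthogonalProjectionOnto (P i x) :=
    ⟨LinearMap.pi fun i =>
      ((Ai P i).orthogonalProjectionOnto : EuclideanSpace ℝ (Fin (d i)) →ₗ[ℝ] Ai P i) ∘ₗ P i,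
      fun x i => rfl⟩
  have hLS : ∀ a, L (S a) = a := by
    intro a
    funext i
    rw [hL, hPS]
    exact Submodule.orthogonalProjectionOnto_mem_subspace_eq_self (a i)
  obtain ⟨M, hM⟩ : ∃ M : Submodule ℝ (EuclideanSpace ℝ (Fin n)), M = LinearMap.ker L := ⟨_, rfl⟩
  have hM1 : ∀ t ∈ M, L t = 0 := fun t ht => by rw [hM] at ht; exact ht
  have hM2 : ∀ x, x - S (L x) ∈ M := fun x => by
    rw [hM, LinearMap.mem_ker, map_sub, hLS, sub_self]
  have horth : ∀ t ∈ M, ∀ i, P i t ∈ (Ai P i)ᗮ := by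
    intro t ht i
    have h1 := congrFun (hM1 t ht) i
    rw [hL] at h1
    exact Submodule.orthogonalProjectionOnto_eq_zero_iff.1 h1
  let e0 : ((∀ i, Ai P i) × M) ≃ₗ[ℝ] EuclideanSpace ℝ (Fin n) :=
    { S.coprod M.subtype with
      invFun := fun x => (L x, ⟨x - S (L x), hM2 x⟩)
      left_inv := by
        rintro ⟨a, t⟩
        have h1 : L (S a + t) = a := by rw [map_add, hLS, hM1 t t.2, add_zero]
        refine Prod.ext ?_ (Subtype.ext ?_)
        · exact h1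
        · show S a + t - S (L (S a + t)) = t
          rw [h1]
          abel
      right_inv := fun x => by
        show S (L x) + (x - S (L x)) = x
        abel }
  have he0 : ∀ a t, e0 (a, t) = S a + t := fun a t => rfl
  -- the images of `M`
  let R : ∀ i, Submodule ℝ (EuclideanSpace ℝ (Fin (d i))) := fun i =>
    LinearMap.range ((P i).domRestrict M)
  have hR1 : ∀ i, R i ≤ (Ai P i)ᗮ := by
    rintro i _ ⟨t, rfl⟩
    exact horth t t.2 i
  have hR2 : ∀ i, R i ≤ LinearMap.range (P i) := by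
    rintro i _ ⟨t, rfl⟩
    exact ⟨t, rfl⟩
  have hA2 : ∀ i, Ai P i ≤ LinearMap.range (P i) := by
    rintro i _ ⟨t, rfl⟩
    exact ⟨t, rfl⟩
  have hdim : ∀ i, finrank ℝ (R i) + finrank ℝ (Ai P i) ≤ finrank ℝ (LinearMap.range (P i)) := by
    intro i
    have h1 := Submodule.finrank_sup_add_finrank_inf_eq (R i) (Ai P i)
    have h2 : R i ⊓ Ai P i = ⊥ := by
      rw [eq_bot_iff]
      rintro x ⟨hx1, hx2⟩
      have h3 := (Submodule.mem_orthogonal _ _).1 (hR1 i hx1) x hx2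
      exact inner_self_eq_zero.1 h3
    rw [h2, finrank_bot, add_zero] at h1
    rw [← h1]
    exact Submodule.finrank_mono (sup_le (hR2 i) (hA2 i))
  let fA := fun i => (stdOrthonormalBasis ℝ (Ai P i)).repr
  let fR := fun i => (stdOrthonormalBasis ℝ (R i)).repr
  let fM := (stdOrthonormalBasis ℝ M).repr
  let e1 : ((∀ i, EuclideanSpace ℝ (Fin (finrank ℝ (Ai P i)))) ×
      EuclideanSpace ℝ (Fin (finrank ℝ M))) ≃ₗ[ℝ] ((∀ i, Ai P i) × M) :=
    LinearEquiv.prodCongr (LinearEquiv.piCongrRight fun i => (fA i).symm.toLinearEquiv)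
      fM.symm.toLinearEquiv
  let Q : ∀ i, EuclideanSpace ℝ (Fin (finrank ℝ M)) →ₗ[ℝ]
      EuclideanSpace ℝ (Fin (finrank ℝ (R i))) := fun i =>
    (fR i).toLinearEquiv.toLinearMap ∘ₗ ((P i).domRestrict M).rangeRestrict ∘ₗ
      fM.symm.toLinearEquiv.toLinearMap
  refine ⟨finrank ℝ M, fun i => finrank ℝ (Ai P i), fun i => finrank ℝ (R i), e1.trans e0, Q,
    hf, hdim, fun i z => ?_⟩
  · have h1 : (e1.trans e0) z = S (fun i => (fA i).symm (z.1 i)) + (fM.symm z.2 : M) := rfl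
    rw [h1, map_add, hPS]
    have h2 : ‖Q i z.2‖ = ‖P i (fM.symm z.2 : M)‖ := by
      show ‖(fR i) (((P i).domRestrict M).rangeRestrict (fM.symm z.2))‖ = _
      rw [LinearIsometryEquiv.norm_map]
      rfl
    have h3 : ‖z.1 i‖ = ‖(((fA i).symm (z.1 i) : Ai P i) : EuclideanSpace ℝ (Fin (d i)))‖ :=
      ((fA i).symm.norm_map (z.1 i)).symm
    have h4 : ⟪(((fA i).symm (z.1 i) : Ai P i) : EuclideanSpace ℝ (Fin (d i))),
        P i (fM.symm z.2 : M)⟫_ℝ = 0 :=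
      (Submodule.mem_orthogonal _ _).1 (horth _ (fM.symm z.2).2 i) _ ((fA i).symm (z.1 i)).2
    rw [h2, h3, norm_add_sq_real, h4]
    ring

end Pool.Agent.W5h33.KQ
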