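import Pool.Agent.W5h33.KQ.Mo
import Pool.Agent.W5h33.KL.Mc

/-!
# Products of powers of `1 - ψ_i (Q_i t)`: the marginal
-/

set_option autoImplicit false
set_option linter.unusedSectionVars false

namespace Pool.Agent.W5h33.KQ

open MeasureTheory Set Filter Topology
open scoped ENNReal InnerProductSpace
open Pool.Agent.R754.KG (E un sl Rv)
open Pool.Agent.R755.KF (CB)
open Pool.Agent.R755.KS (KM bl int_cont bl_prob bl_bdd)
open Pool.Agent.Y506.RG (EW VW Adm)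
open Pool.Agent.W5h33.KL (bl_int bl_adm ew_smul km_of_iso)

variable {N m D : ℕ} {b : Fin N → ℕ} {Q : ∀ i, E m →ₗ[ℝ] E (b i)} {β : Fin N → ℝ}
  {κ Γ : ℝ} {ψ : ∀ i, E (b i) → ℝ}

theorem Hy.km (h : Hy κ Γ ψ Q β) {K : Set (E D × E m)} (hK : CB K) {C : ℝ} (hC : 0 < C)
    (hR : ∀ t, Rv K t = C * wt ψ Q β t) {δ : ℝ} (hδ : 0 ≤ δ) : KM (578 * κ ^ 2 * (3 + Γ) ^ 2) δ (bl K) := by
  have hψ := h.pr
  have hk := h.ker
  have hκ := h.one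
  have hΓ := h.nn
  have hβ0 : ∀ i, 0 < β i := fun i => by linarith [h.two i]
  have hRf : Rv K = fun t => C * wt ψ Q β t := funext hR
  have hint : ∀ f : E m → ℝ, ∫ t, f t ∂(bl K) = EW (wt ψ Q β) f := fun f => by
    rw [bl_int hK f, hRf, ew_smul hC.ne']
  have hp := bl_prob hK
  obtain ⟨B, hB⟩ := bl_bdd hK
  obtain ⟨A, hA⟩ := Pool.Agent.Y211.PV.iso m (Rv K) (bl_adm hK)
  have hI := wt_pos hψ hβ0 hk
  have hwi : ∀ f : E m → ℝ, Continuous f → Integrable fun x => f x * wt ψ Q β x :=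
    fun f hf => wt_int hψ hβ0 hk hf
  have hA' : ∀ θ : E m, (∫ x, ⟪A.toLinearEquiv x, θ⟫_ℝ ^ 2 ∂(bl K)) -
      (∫ x, ⟪A.toLinearEquiv x, θ⟫_ℝ ∂(bl K)) ^ 2 = ‖θ‖ ^ 2 := by
    intro θ
    rw [← hA θ, hint, hint]
    unfold VW
    rw [hRf, ew_smul hC.ne', ew_smul hC.ne']
    rfl
  obtain ⟨T, hT⟩ := exT Q β hβ0 hk
  obtain ⟨B0, hB0⟩ : ∃ B0 : E m →L[ℝ] E m, ∀ y, B0 y = A (T.symm y) :=
    ⟨(A : E m →L[ℝ] E m).comp (T.symm : E m →L[ℝ] E m), fun y => rfl⟩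
  -- the norm of `A T⁻¹`
  have hsm : ∀ y : E m, ‖y‖ ≤ 1 / (17 * κ * (3 + Γ)) → ‖B0 y‖ ≤ 1 := by
    intro y hy
    have h1 : 289 * κ ^ 2 * (3 + Γ) ^ 2 * ∑ i, β i * ‖Q i (T.symm y)‖ ^ 2 ≤ 1 := by
      rw [← hT, T.apply_symm_apply]
      have h2 : (17 * κ * (3 + Γ)) * ‖y‖ ≤ 1 := by
        rw [le_div_iff₀ (by positivity)] at hy
        linarith
      have h3 : ((17 * κ * (3 + Γ)) * ‖y‖) ^ 2 ≤ 1 ^ 2 := pow_le_pow_left₀ (by positivity) h2 2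
      have h4 : ((17 * κ * (3 + Γ)) * ‖y‖) ^ 2 = 289 * κ ^ 2 * (3 + Γ) ^ 2 * ‖y‖ ^ 2 := by ring
      linarith
    obtain ⟨θ, hθ⟩ : ∃ θ : E m, θ = B0 y := ⟨_, rfl⟩
    have h2 := h.vlow (T.symm y) (ContinuousLinearMap.adjoint (A : E m →L[ℝ] E m) θ) h1
    have h3 : ∀ x : E m, ⟪x, ContinuousLinearMap.adjoint (A : E m →L[ℝ] E m) θ⟫_ℝ = ⟪A x, θ⟫_ℝ :=
      fun x => by rw [ContinuousLinearMap.adjoint_inner_right]; rfl
    simp only [h3] at h2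
    rw [← hB0, ← hθ, real_inner_self_eq_norm_sq] at h2
    have h4 := hA' θ
    rw [hint, hint] at h4
    have h5 : EW (wt ψ Q β) (fun x => ⟪A.toLinearEquiv x, θ⟫_ℝ) = 0 := by
      unfold EW
      rw [wt_odd hψ (f := fun x => ⟪A.toLinearEquiv x, θ⟫_ℝ) fun x => by
        rw [map_neg, inner_neg_left], zero_div]
    rw [h5] at h4
    unfold EW at h4
    have h6 : ∫ x, ⟪A x, θ⟫_ℝ ^ 2 * wt ψ Q β x = ‖θ‖ ^ 2 * ∫ x, wt ψ Q β x := by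
      have h7 : (∫ x, ⟪A.toLinearEquiv x, θ⟫_ℝ ^ 2 * wt ψ Q β x) / ∫ x, wt ψ Q β x = ‖θ‖ ^ 2 := by
        linarith
      rw [div_eq_iff hI.ne'] at h7
      exact h7
    rw [h6] at h2
    have h7 : (‖θ‖ ^ 2) ^ 2 ≤ ‖θ‖ ^ 2 := le_of_mul_le_mul_right h2 hI
    rw [← hθ]
    by_contra hc
    push Not at hc
    have h8 : 1 < ‖θ‖ ^ 2 := by nlinarith
    nlinarith
  have hBn : ‖B0‖ ≤ 17 * κ * (3 + Γ) := by
    refine ContinuousLinearMap.opNorm_le_bound _ (by positivity) fun y => ?_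
    rcases eq_or_ne y 0 with rfl | hy
    · simp
    have hyn : 0 < ‖y‖ := norm_pos_iff.2 hy
    have h1 := hsm ((1 / (17 * κ * (3 + Γ) * ‖y‖)) • y) (by
      rw [norm_smul, Real.norm_of_nonneg (by positivity)]
      refine le_of_eq ?_
      field_simp)
    rw [map_smul, norm_smul, Real.norm_of_nonneg (by positivity)] at h1
    rw [one_div, inv_mul_le_iff₀ (by positivity), mul_one] at h1
    exact h1
  refine km_of_iso (ρ := bl K) hB (by positivity) A.toLinearEquiv hA' fun f L M hf => ?_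
  have hfd : Differentiable ℝ f := hf.diff.differentiable (by norm_num)
  obtain ⟨c, hc⟩ := poin hψ hβ0 T hT (fun y => f (B0 y)) (hf.diff.comp B0.contDiff)
  have hBT : ∀ x, B0 (T x) = A x := fun x => by rw [hB0, T.symm_apply_apply]
  have hfdg : ∀ y, fderiv ℝ (fun y => f (B0 y)) y = (fderiv ℝ f (B0 y)).comp B0 := by
    intro y
    exact ((hfd (B0 y)).hasFDerivAt.comp y B0.hasFDerivAt).fderiv
  have hfc : Continuous fun x => f (A x) := hf.diff.continuous.comp A.continuous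
  have hgc : Continuous fun x => ‖fderiv ℝ f (A x)‖ ^ 2 :=
    ((hf.diff.continuous_fderiv (by norm_num)).comp A.continuous).norm.pow 2
  have hgc2 : Continuous fun x => ‖fderiv ℝ (fun y => f (B0 y)) (T x)‖ ^ 2 := by
    have : ContDiff ℝ 1 fun y => f (B0 y) := hf.diff.comp B0.contDiff
    exact ((this.continuous_fderiv (by norm_num)).comp T.continuous).norm.pow 2
  simp only [hBT] at hc
  have h1 : ∫ x, ‖fderiv ℝ (fun y => f (B0 y)) (T x)‖ ^ 2 * wt ψ Q β x ≤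
      289 * κ ^ 2 * (3 + Γ) ^ 2 * ∫ x, ‖fderiv ℝ f (A x)‖ ^ 2 * wt ψ Q β x := by
    rw [← integral_const_mul]
    refine integral_mono (hwi _ hgc2) ((hwi _ hgc).const_mul (289 * κ ^ 2 * (3 + Γ) ^ 2)) fun x => ?_
    show ‖fderiv ℝ (fun y => f (B0 y)) (T x)‖ ^ 2 * wt ψ Q β x ≤
      289 * κ ^ 2 * (3 + Γ) ^ 2 * (‖fderiv ℝ f (A x)‖ ^ 2 * wt ψ Q β x)
    rw [hfdg, hBT, ← mul_assoc]
    refine mul_le_mul_of_nonneg_right ?_ (wt_nonneg x)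
    have h2 : ‖(fderiv ℝ f (A x)).comp B0‖ ≤ ‖fderiv ℝ f (A x)‖ * (17 * κ * (3 + Γ)) :=
      (ContinuousLinearMap.opNorm_comp_le _ _).trans
        (mul_le_mul_of_nonneg_left hBn (norm_nonneg _))
    calc ‖(fderiv ℝ f (A x)).comp B0‖ ^ 2 ≤ (‖fderiv ℝ f (A x)‖ * (17 * κ * (3 + Γ))) ^ 2 :=
          pow_le_pow_left₀ (norm_nonneg _) h2 2
      _ = 289 * κ ^ 2 * (3 + Γ) ^ 2 * ‖fderiv ℝ f (A x)‖ ^ 2 := by ring
  show (∫ x, f (A x) ^ 2 ∂(bl K)) - (∫ x, f (A x) ∂(bl K)) ^ 2 ≤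
    δ + 578 * κ ^ 2 * (3 + Γ) ^ 2 * ∫ x, ‖fderiv ℝ f (A x)‖ ^ 2 ∂(bl K)
  rw [hint, hint, hint]
  unfold EW
  obtain ⟨S, hS⟩ : ∃ S, S = ∫ x, wt ψ Q β x := ⟨_, rfl⟩
  obtain ⟨P, hP⟩ : ∃ P, P = ∫ x, f (A x) ^ 2 * wt ψ Q β x := ⟨_, rfl⟩
  obtain ⟨M1, hM1⟩ : ∃ P, P = ∫ x, f (A x) * wt ψ Q β x := ⟨_, rfl⟩
  obtain ⟨G, hG⟩ : ∃ P, P = ∫ x, ‖fderiv ℝ f (A x)‖ ^ 2 * wt ψ Q β x := ⟨_, rfl⟩
  rw [← hS] at hI
  have e1 : ∫ x, (f (A x) - c) ^ 2 * wt ψ Q β x = P - 2 * c * M1 + c ^ 2 * S := by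
    have i1 : Integrable fun x => f (A x) ^ 2 * wt ψ Q β x :=
      hwi (fun x => f (A x) ^ 2) (hfc.pow 2)
    have i2 : Integrable fun x => 2 * c * (f (A x) * wt ψ Q β x) := (hwi _ hfc).const_mul (2 * c)
    have i3 := (hwi (fun _ => (1 : ℝ)) continuous_const).const_mul (c ^ 2)
    have i12 : Integrable fun x => f (A x) ^ 2 * wt ψ Q β x - 2 * c * (f (A x) * wt ψ Q β x) :=
      i1.sub i2
    have e2 : (fun x => (f (A x) - c) ^ 2 * wt ψ Q β x) = fun x =>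
        (f (A x) ^ 2 * wt ψ Q β x - 2 * c * (f (A x) * wt ψ Q β x)) + c ^ 2 * (1 * wt ψ Q β x) := by
      funext x; ring
    rw [e2, integral_add i12 i3, integral_sub i1 i2, integral_const_mul, integral_const_mul]
    simp only [one_mul]
    rw [hP, hM1, hS]
  rw [e1] at hc
  rw [← hG] at h1
  rw [← hP, ← hM1, ← hG, ← hS]
  have h2 : P - 2 * c * M1 + c ^ 2 * S ≤ 578 * κ ^ 2 * (3 + Γ) ^ 2 * G := by linarith
  have h3 : P / S - (M1 / S) ^ 2 ≤ (P - 2 * c * M1 + c ^ 2 * S) / S := by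
    have h4 : (P - 2 * c * M1 + c ^ 2 * S) / S - (P / S - (M1 / S) ^ 2) = (M1 / S - c) ^ 2 := by
      field_simp
      ring
    nlinarith [sq_nonneg (M1 / S - c)]
  have h4 : (P - 2 * c * M1 + c ^ 2 * S) / S ≤ 578 * κ ^ 2 * (3 + Γ) ^ 2 * (G / S) := by
    rw [mul_div_assoc']
    exact div_le_div_of_nonneg_right h2 hI.le
  linarith

end Pool.Agent.W5h33.KQ
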