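import Pool.Agent.W5h33.KQ.Qa
import Pool.Agent.H212R2.KLS.T1
import Pool.Agent.R754.KG.A

/-!
# Negative moments of `1 - ψ(Q x)` by scaling
-/

set_option autoImplicit false
set_option linter.unusedSectionVars false

namespace Pool.Agent.W5h33.KQ

open MeasureTheory Set Filter Topology
open scoped ENNReal InnerProductSpace
open Pool.Agent.R754.KG (E)

/-- coordinates adapted to the kernel of a linear map -/
theorem coord {m b : ℕ} (Q : E m →ₗ[ℝ] E b) : ∃ (p q : ℕ) (Φ : (E p × E q) ≃L[ℝ] E m)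
    (J : E p →ₗ[ℝ] E b), p = Module.finrank ℝ (LinearMap.range Q) ∧ (∀ s t, Q (Φ (s, t)) = J s) ∧
    ∃ c : ℝ≥0∞, c ≠ 0 ∧ c ≠ ∞ ∧ ∀ f : E m → ℝ≥0∞, Measurable f →
      ∫⁻ s, ∫⁻ t, f (Φ (s, t)) = c * ∫⁻ x, f x := by
  obtain ⟨C, hC⟩ := Submodule.exists_isCompl (LinearMap.ker Q)
  let eC : E (Module.finrank ℝ C) ≃ₗ[ℝ] C := LinearEquiv.ofFinrankEq _ _ (by simp)
  let eK : E (Module.finrank ℝ (LinearMap.ker Q)) ≃ₗ[ℝ] LinearMap.ker Q :=
    LinearEquiv.ofFinrankEq _ _ (by simp)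
  let Φ0 := (LinearEquiv.prodCongr eC eK).trans
    (Submodule.prodEquivOfIsCompl C (LinearMap.ker Q) hC.symm)
  have hΦ0 : ∀ s t, Φ0 (s, t) = (eC s : E m) + (eK t : E m) := fun s t => rfl
  let Φ := Φ0.toContinuousLinearEquiv
  have h1 : Module.finrank ℝ C = Module.finrank ℝ (LinearMap.range Q) := by
    have h2 := Submodule.finrank_add_eq_of_isCompl hC
    have h3 := LinearMap.finrank_range_add_finrank_ker Q
    omega
  refine ⟨_, _, Φ, Q ∘ₗ C.subtype ∘ₗ eC.toLinearMap, h1, fun s t => ?_, ?_⟩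
  · show Q (Φ0 (s, t)) = Q (eC s : E m)
    rw [hΦ0, map_add, (eK t).2, add_zero]
  · have : (Measure.map Φ ((volume : Measure (E (Module.finrank ℝ C))).prod
        (volume : Measure (E (Module.finrank ℝ (LinearMap.ker Q)))))).IsAddHaarMeasure :=
      Φ.isAddHaarMeasure_map _
    obtain ⟨c, hc0, hct, hc⟩ : ∃ c : ℝ≥0∞, c ≠ 0 ∧ c ≠ ∞ ∧
        Measure.map Φ ((volume : Measure (E (Module.finrank ℝ C))).prod
          (volume : Measure (E (Module.finrank ℝ (LinearMap.ker Q))))) =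
          c • (volume : Measure (E m)) :=
      ⟨_, ENNReal.coe_ne_zero.mpr
        (Measure.addHaarScalarFactor_pos_of_isAddHaarMeasure _ (volume : Measure (E m))).ne',
        ENNReal.coe_ne_top,
        Measure.isAddLeftInvariant_eq_smul _ (volume : Measure (E m))⟩
    refine ⟨c, hc0, hct, fun f hf => ?_⟩
    rw [← lintegral_prod (fun z => f (Φ z)) (hf.comp Φ.continuous.measurable).aemeasurable,
      ← lintegral_map hf Φ.continuous.measurable, hc, lintegral_smul_measure, smul_eq_mul]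

/-- the marginals of even log-concave functions increase towards the origin -/
theorem rho_mono {m p q : ℕ} (Φ : (E p × E q) ≃L[ℝ] E m) {R : E m → ℝ} (hm : Measurable R)
    (h0 : ∀ x, 0 ≤ R x) (hn : ∀ x, R (-x) = R x)
    (hl : ∀ (x y : E m) (t : ℝ), 0 < t → t < 1 → R x ^ (1 - t) * R y ^ t ≤ R ((1 - t) • x + t • y))
    {μ : ℝ} (hμ0 : 0 < μ) (hμ1 : μ < 1) (s : E p) :
    ∫⁻ t, ENNReal.ofReal (R (Φ (s, t))) ≤ ∫⁻ t, ENNReal.ofReal (R (Φ (μ • s, t))) := by
  obtain ⟨τ, hτ⟩ : ∃ τ : ℝ, τ = (1 - μ) / 2 := ⟨_, rfl⟩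
  have hτ0 : 0 < τ := by rw [hτ]; linarith
  have hτ1 : τ < 1 := by rw [hτ]; linarith
  have hmeas : ∀ s' : E p, Measurable fun t : E q => ENNReal.ofReal (R (Φ (s', t))) := fun s' =>
    (hm.comp (Φ.continuous.measurable.comp measurable_prodMk_left)).ennreal_ofReal
  have h1 := Pool.Agent.H212R2.KLS.PL (volume : Measure (E q)) τ hτ0 hτ1
    (fun t => ENNReal.ofReal (R (Φ (s, t)))) (fun t => ENNReal.ofReal (R (Φ (-s, t))))
    (fun t => ENNReal.ofReal (R (Φ (μ • s, t)))) (hmeas _) (hmeas _) (hmeas _) (fun x y => by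
      rw [ENNReal.ofReal_rpow_of_nonneg (h0 _) (by linarith),
        ENNReal.ofReal_rpow_of_nonneg (h0 _) hτ0.le, ← ENNReal.ofReal_mul
          (Real.rpow_nonneg (h0 _) _)]
      refine ENNReal.ofReal_le_ofReal ((hl _ _ τ hτ0 hτ1).trans (le_of_eq ?_))
      congr 1
      rw [← map_smul, ← map_smul, ← map_add]
      congr 1
      refine Prod.ext ?_ rfl
      show (1 - τ) • s + τ • -s = μ • s
      have : μ = 1 - 2 * τ := by rw [hτ]; ring
      rw [this]
      module)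
  have h2 : ∫⁻ t : E q, ENNReal.ofReal (R (Φ (-s, t))) = ∫⁻ t, ENNReal.ofReal (R (Φ (s, t))) := by
    rw [← lintegral_neg_eq_self (fun t : E q => ENNReal.ofReal (R (Φ (s, t))))]
    refine lintegral_congr fun t => ?_
    rw [← hn]
    congr 2
    rw [← map_neg]
    congr 1
    simp
  rw [h2, ← ENNReal.rpow_add_of_nonneg _ _ (by linarith) hτ0.le] at h1
  simpa using h1

/-- **the scaling inequality** -/
theorem scal_core {p : ℕ} {φ : E p → ℝ} {ρ : E p → ℝ≥0∞} (hρ : Measurable ρ)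
    (hmono : ∀ (μ : ℝ) (s : E p), 0 < μ → μ < 1 → ρ s ≤ ρ (μ • s)) (hc : Continuous φ)
    (h0 : ∀ s, 0 ≤ φ s) (hs : ∀ (r : ℝ) (s : E p), 1 ≤ r → r * φ s ≤ φ (r • s)) {a : ℝ} (ha : 0 < a)
    (hfin : ∫⁻ s, ENNReal.ofReal (ph φ s ^ a) ∂(volume.withDensity ρ) ≠ ∞) :
    ENNReal.ofReal a * ∫⁻ s, ENNReal.ofReal (ph φ s ^ a / ph φ s) ∂(volume.withDensity ρ) ≤
      ENNReal.ofReal (p + a) * ∫⁻ s, ENNReal.ofReal (ph φ s ^ a) ∂(volume.withDensity ρ) := by
  obtain ⟨F, hF⟩ : ∃ F, F = ∫⁻ s, ENNReal.ofReal (ph φ s ^ a) ∂(volume.withDensity ρ) := ⟨_, rfl⟩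
  rw [← hF] at hfin ⊢
  have hphc : Continuous (ph φ) := (continuous_const.sub hc).max continuous_const
  have hpc : Continuous fun s => ph φ s ^ a := hphc.rpow_const fun _ => Or.inr ha.le
  -- the difference quotients
  obtain ⟨g, hg⟩ : ∃ g : ℝ → E p → ℝ≥0∞, g = fun ε s =>
      ENNReal.ofReal ((ph φ s ^ a - max (ph φ s - ε * φ s) 0 ^ a) / ε) := ⟨_, rfl⟩
  have hgm : ∀ ε, Measurable (g ε) := by
    intro ε
    rw [hg]
    have h1 : Continuous fun s => (ph φ s ^ a - max (ph φ s - ε * φ s) 0 ^ a) / ε :=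
      (hpc.sub (((hphc.sub (continuous_const.mul hc)).max continuous_const).rpow_const
        fun _ => Or.inr ha.le)).div_const ε
    exact h1.measurable.ennreal_ofReal
  have key : ∀ ε : ℝ, 0 < ε → ε ≤ 1 → ∫⁻ s, g ε s ∂(volume.withDensity ρ) ≤ p * F := by
    intro ε he0 he1
    obtain ⟨r, hr⟩ : ∃ r : ℝ, r = 1 + ε := ⟨_, rfl⟩
    have hr1 : 1 < r := by rw [hr]; linarith
    have hr0 : 0 < r := by linarith
    -- pointwise
    have h1 : ∀ s, ENNReal.ofReal (ph φ (r • s) ^ a) + ENNReal.ofReal ε * g ε s ≤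
        ENNReal.ofReal (ph φ s ^ a) := by
      intro s
      have e1 : ph φ (r • s) ≤ max (ph φ s - ε * φ s) 0 := by
        unfold ph
        refine max_le_max ?_ le_rfl
        have h2 := hs r s hr1.le
        have h3 : 1 - φ s ≤ max (1 - φ s) 0 := le_max_left _ _
        rw [hr] at h2 ⊢
        linarith
      have e2 : ph φ (r • s) ^ a ≤ max (ph φ s - ε * φ s) 0 ^ a :=
        Real.rpow_le_rpow (ph_nonneg _) e1 ha.le
      have e3 : max (ph φ s - ε * φ s) 0 ^ a ≤ ph φ s ^ a := by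
        refine Real.rpow_le_rpow (le_max_right _ _) (max_le ?_ (ph_nonneg _)) ha.le
        have := mul_nonneg he0.le (h0 s)
        linarith
      have e4 : 0 ≤ ph φ (r • s) ^ a := Real.rpow_nonneg (ph_nonneg _) _
      rw [hg, ← ENNReal.ofReal_mul he0.le, mul_div_cancel₀ _ he0.ne',
        ← ENNReal.ofReal_add e4 (by linarith)]
      exact ENNReal.ofReal_le_ofReal (by linarith)
    have h2 := lintegral_mono (μ := volume.withDensity ρ) h1
    have hsm : Measurable fun s : E p => ENNReal.ofReal (ph φ (r • s) ^ a) :=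
      (hpc.comp (continuous_const_smul r)).measurable.ennreal_ofReal
    rw [lintegral_add_left hsm, lintegral_const_mul _ (hgm ε), ← hF] at h2
    -- change of variables
    have h3 : ENNReal.ofReal ((r ^ p)⁻¹) * F ≤
        ∫⁻ s, ENNReal.ofReal (ph φ (r • s) ^ a) ∂(volume.withDensity ρ) := by
      rw [lintegral_withDensity_eq_lintegral_mul _ hρ hsm, hF,
        lintegral_withDensity_eq_lintegral_mul _ hρ hpc.measurable.ennreal_ofReal]
      have h4 : ∫⁻ s, (ρ * fun s => ENNReal.ofReal (ph φ (r • s) ^ a)) s =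
          ∫⁻ s, ρ (r⁻¹ • s) * ENNReal.ofReal (ph φ s ^ a)
            ∂(Measure.map (r • ·) (volume : Measure (E p))) := by
        have hm3 : Measurable fun s => ρ (r⁻¹ • s) * ENNReal.ofReal (ph φ s ^ a) :=
          (hρ.comp (measurable_const_smul r⁻¹)).mul hpc.measurable.ennreal_ofReal
        rw [lintegral_map hm3 (measurable_const_smul r)]
        refine lintegral_congr fun s => ?_
        simp only [Pi.mul_apply]
        rw [inv_smul_smul₀ hr0.ne']
      rw [h4, Measure.map_addHaar_smul _ hr0.ne', lintegral_smul_measure, smul_eq_mul,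
        finrank_euclideanSpace_fin, abs_of_nonneg (by positivity)]
      refine mul_le_mul_right (lintegral_mono fun s => ?_) _
      simp only [Pi.mul_apply]
      exact mul_le_mul_left (hmono r⁻¹ s (inv_pos.2 hr0) (inv_lt_one_of_one_lt₀ hr1)) _
    -- Bernoulli
    have h5 : F ≤ ENNReal.ofReal (p * ε) * F + ENNReal.ofReal ((r ^ p)⁻¹) * F := by
      rw [← add_mul, ← ENNReal.ofReal_add (by positivity) (by positivity)]
      have h6 : 1 ≤ p * ε + (r ^ p)⁻¹ := by
        have h7 : 1 + (p : ℝ) * (r⁻¹ - 1) ≤ (r⁻¹) ^ p := by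
          have := one_add_mul_le_pow (a := r⁻¹ - 1) (by
            have := inv_pos.2 hr0
            linarith) p
          simpa using this
        have h8 : 1 - ε ≤ r⁻¹ := by
          rw [← one_div, le_div_iff₀ hr0, hr]
          nlinarith
        have h9 : -((p : ℝ) * ε) ≤ p * (r⁻¹ - 1) := by
          have : (0 : ℝ) ≤ p := Nat.cast_nonneg _
          nlinarith
        rw [← inv_pow]
        linarith
      calc F = ENNReal.ofReal 1 * F := by rw [ENNReal.ofReal_one, one_mul]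
        _ ≤ _ := mul_le_mul_left (ENNReal.ofReal_le_ofReal h6) _
    have h6 : ENNReal.ofReal ((r ^ p)⁻¹) * F ≠ ∞ := ENNReal.mul_ne_top ENNReal.ofReal_ne_top hfin
    have h7 : ENNReal.ofReal ε * ∫⁻ s, g ε s ∂(volume.withDensity ρ) ≤
        ENNReal.ofReal (p * ε) * F := by
      refine (ENNReal.add_le_add_iff_left h6).1 ?_
      refine le_trans ?_ (h5.trans (le_of_eq (add_comm _ _)))
      exact le_trans (add_le_add_left h3 _) h2
    have h8 : ENNReal.ofReal (p * ε) * F = ENNReal.ofReal ε * (p * F) := by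
      rw [mul_comm (p : ℝ), ENNReal.ofReal_mul he0.le, ENNReal.ofReal_natCast, mul_assoc]
    rw [h8] at h7
    exact (ENNReal.mul_le_mul_iff_right (ENNReal.ofReal_pos.2 he0).ne' ENNReal.ofReal_ne_top).1 h7
  -- Fatou
  have h1 : ∫⁻ s, ENNReal.ofReal (a * (ph φ s ^ a / ph φ s) * φ s) ∂(volume.withDensity ρ) ≤
      p * F := by
    have h2 : ∫⁻ s, ENNReal.ofReal (a * (ph φ s ^ a / ph φ s) * φ s) ∂(volume.withDensity ρ) ≤
        ∫⁻ s, liminf (fun ε => g ε s) (𝓝[>] 0) ∂(volume.withDensity ρ) := by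
      refine lintegral_mono fun s => ?_
      rcases (ph_nonneg (ψ := φ) s).eq_or_lt with h3 | h3
      · rw [← h3]
        simp
      · have hd : HasDerivAt (fun ε : ℝ => (ph φ s - ε * φ s) ^ a)
            (a * (ph φ s ^ a / ph φ s) * -φ s) 0 := by
          have h4 : HasDerivAt (fun ε : ℝ => ph φ s - ε * φ s) (-φ s) 0 := by
            have := ((hasDerivAt_id (0 : ℝ)).mul_const (φ s)).const_sub (ph φ s)
            simpa using this
          have h5 := h4.rpow_const (p := a) (Or.inl (by simpa using h3.ne'))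
          have h6 : -φ s * a * (ph φ s - 0 * φ s) ^ (a - 1) =
              a * (ph φ s ^ a / ph φ s) * -φ s := by
            rw [zero_mul, sub_zero, Real.rpow_sub_one h3.ne']
            ring
          rw [← h6]
          exact h5
        have h4 := hd.tendsto_slope_zero_right
        have h5 : Tendsto (fun ε : ℝ => (ph φ s ^ a - (ph φ s - ε * φ s) ^ a) / ε) (𝓝[>] 0)
            (𝓝 (a * (ph φ s ^ a / ph φ s) * φ s)) := by
          have h6 := h4.neg
          have e1 : -(a * (ph φ s ^ a / ph φ s) * -φ s) = a * (ph φ s ^ a / ph φ s) * φ s := by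
            ring
          rw [e1] at h6
          refine h6.congr fun ε => ?_
          simp only [zero_add, zero_mul, sub_zero, smul_eq_mul]
          rw [div_eq_inv_mul]
          ring
        have h6 : ∀ᶠ ε : ℝ in 𝓝[>] 0, (ph φ s ^ a - (ph φ s - ε * φ s) ^ a) / ε =
            (ph φ s ^ a - max (ph φ s - ε * φ s) 0 ^ a) / ε := by
          have h7 : ∀ᶠ ε : ℝ in 𝓝 0, 0 < ph φ s - ε * φ s := by
            have hcc : Continuous fun ε : ℝ => ph φ s - ε * φ s := by fun_prop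
            exact hcc.continuousAt.eventually (lt_mem_nhds (by simpa using h3))
          filter_upwards [nhdsWithin_le_nhds h7] with ε hε
          rw [max_eq_left hε.le]
        have h7 : Tendsto (fun ε => g ε s) (𝓝[>] 0)
            (𝓝 (ENNReal.ofReal (a * (ph φ s ^ a / ph φ s) * φ s))) := by
          rw [hg]
          exact ENNReal.tendsto_ofReal (h5.congr' h6)
        exact h7.liminf_eq.ge
    refine h2.trans ((lintegral_liminf_le hgm).trans ?_)
    refine liminf_le_of_frequently_le' (Eventually.frequently ?_)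
    filter_upwards [Ioo_mem_nhdsGT (zero_lt_one (α := ℝ))] with ε hε
    exact key ε hε.1 hε.2.le
  -- conclusion
  have h2 : ENNReal.ofReal a * ∫⁻ s, ENNReal.ofReal (ph φ s ^ a / ph φ s) ∂(volume.withDensity ρ) =
      (∫⁻ s, ENNReal.ofReal (a * (ph φ s ^ a / ph φ s) * φ s) ∂(volume.withDensity ρ)) +
      ENNReal.ofReal a * ∫⁻ s, ENNReal.ofReal (ph φ s ^ a) ∂(volume.withDensity ρ) := by
    have hm1 : Measurable fun s => ENNReal.ofReal (ph φ s ^ a / ph φ s) :=
      (hpc.measurable.div hphc.measurable).ennreal_ofReal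
    have hm2 : Measurable fun s => ENNReal.ofReal (ph φ s ^ a) := hpc.measurable.ennreal_ofReal
    rw [← lintegral_const_mul _ hm1, ← lintegral_const_mul _ hm2, ← lintegral_add_right _
      (hm2.const_mul _)]
    refine lintegral_congr fun s => ?_
    have hp1 : 0 ≤ ph φ s ^ a := Real.rpow_nonneg (ph_nonneg _) _
    have hp2 : 0 ≤ ph φ s ^ a / ph φ s := div_nonneg hp1 (ph_nonneg _)
    rw [← ENNReal.ofReal_mul ha.le, ← ENNReal.ofReal_mul ha.le, ← ENNReal.ofReal_add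
      (mul_nonneg (mul_nonneg ha.le hp2) (h0 s)) (mul_nonneg ha.le hp1)]
    congr 1
    rcases (ph_nonneg (ψ := φ) s).eq_or_lt with h3 | h3
    · rw [← h3, Real.zero_rpow ha.ne']
      simp
    · obtain ⟨h4, h5⟩ := ph_of_pos h3
      have h6 : φ s = 1 - ph φ s := by linarith
      have h7 : ph φ s ≠ 0 := h3.ne'
      generalize ph φ s = x at *
      rw [h6]
      field_simp
      ring
  rw [h2, ← hF, ENNReal.ofReal_add (Nat.cast_nonneg _) ha.le, ENNReal.ofReal_natCast, add_mul]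
  exact add_le_add_left h1 _

/-- the inequality for `(1 - ψ(Q x))₊ ^ a R(x)` -/
theorem scal {m b : ℕ} (Q : E m →ₗ[ℝ] E b) {κ : ℝ} {ψ : E b → ℝ} (hψ : PR κ ψ) {R : E m → ℝ}
    (hm : Measurable R) (h0 : ∀ x, 0 ≤ R x) (hn : ∀ x, R (-x) = R x)
    (hl : ∀ (x y : E m) (t : ℝ), 0 < t → t < 1 → R x ^ (1 - t) * R y ^ t ≤ R ((1 - t) • x + t • y))
    {a : ℝ} (ha : 0 < a) (hi : Integrable fun x => ph ψ (Q x) ^ a * R x) :
    Integrable (fun x => ph ψ (Q x) ^ a / ph ψ (Q x) * R x) ∧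
    a * ∫ x, ph ψ (Q x) ^ a / ph ψ (Q x) * R x ≤
      (Module.finrank ℝ (LinearMap.range Q) + a) * ∫ x, ph ψ (Q x) ^ a * R x := by
  obtain ⟨p, q, Φ, J, hp, hJ, c, hc0, hct, hc⟩ := coord Q
  rw [← hp]
  have hQc : Continuous Q := Q.continuous_of_finiteDimensional
  have hJc : Continuous J := J.continuous_of_finiteDimensional
  obtain ⟨φ, hφ⟩ : ∃ φ : E p → ℝ, φ = fun s => ψ (J s) := ⟨_, rfl⟩
  have hφc : Continuous φ := by rw [hφ]; exact hψ.cont.comp hJc
  have hphφ : ∀ s, ph φ s = ph ψ (J s) := fun s => by rw [hφ]; rfl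
  obtain ⟨ρ, hρ⟩ : ∃ ρ : E p → ℝ≥0∞, ρ = fun s => ∫⁻ t, ENNReal.ofReal (R (Φ (s, t))) := ⟨_, rfl⟩
  have hRm : Measurable fun z : E p × E q => ENNReal.ofReal (R (Φ z)) :=
    (hm.comp Φ.continuous.measurable).ennreal_ofReal
  have hρm : Measurable ρ := by
    rw [hρ]
    exact hRm.lintegral_prod_right'
  have hphm : Measurable fun x => ph ψ (Q x) := (hψ.ph_cont.comp hQc).measurable
  have hphcφ : Continuous (ph φ) := (continuous_const.sub hφc).max continuous_const
  -- integrals of functions of `ph ψ (Q x)`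
  have key : ∀ K : ℝ → ℝ, Measurable K → (∀ y, 0 ≤ y → 0 ≤ K y) →
      ∫⁻ s, ENNReal.ofReal (K (ph φ s)) ∂(volume.withDensity ρ) =
        c * ∫⁻ x, ENNReal.ofReal (K (ph ψ (Q x)) * R x) := by
    intro K hK hK0
    have h1 : Measurable fun x => ENNReal.ofReal (K (ph ψ (Q x)) * R x) :=
      ((hK.comp hphm).mul hm).ennreal_ofReal
    have h2 : Measurable fun s => ENNReal.ofReal (K (ph φ s)) :=
      (hK.comp hphcφ.measurable).ennreal_ofReal
    rw [← hc _ h1, lintegral_withDensity_eq_lintegral_mul _ hρm h2]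
    refine lintegral_congr fun s => ?_
    simp only [Pi.mul_apply]
    rw [hρ]
    simp only
    have h3 : Measurable fun t => ENNReal.ofReal (R (Φ (s, t))) :=
      hRm.comp measurable_prodMk_left
    rw [mul_comm, ← lintegral_const_mul _ h3]
    refine lintegral_congr fun t => ?_
    rw [hJ, hphφ, ENNReal.ofReal_mul (hK0 _ (ph_nonneg _))]
  have k1 := key (fun y => y ^ a) (measurable_id.pow_const a) fun y hy => Real.rpow_nonneg hy _
  have k2 := key (fun y => y ^ a / y) ((measurable_id.pow_const a).div measurable_id)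
    fun y hy => div_nonneg (Real.rpow_nonneg hy _) hy
  have n1 : ∀ x, 0 ≤ ph ψ (Q x) ^ a * R x := fun x =>
    mul_nonneg (Real.rpow_nonneg (ph_nonneg _) _) (h0 x)
  have n2 : ∀ x, 0 ≤ ph ψ (Q x) ^ a / ph ψ (Q x) * R x := fun x =>
    mul_nonneg (div_nonneg (Real.rpow_nonneg (ph_nonneg _) _) (ph_nonneg _)) (h0 x)
  have e1 : ∫⁻ x, ENNReal.ofReal (ph ψ (Q x) ^ a * R x) =
      ENNReal.ofReal (∫ x, ph ψ (Q x) ^ a * R x) :=
    (ofReal_integral_eq_lintegral_ofReal hi (Eventually.of_forall n1)).symm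
  rw [e1] at k1
  have h1 := scal_core (p := p) (φ := φ) (ρ := ρ) hρm (fun μ s h2 h3 => by
    rw [hρ]
    exact rho_mono Φ hm h0 hn hl h2 h3 s) hφc (fun s => by rw [hφ]; exact hψ.nn _)
    (fun r s hr => by
      have hr0 : 0 < r := by linarith
      have h2 := hψ.conv.2 (mem_univ (r • J s)) (mem_univ 0) (inv_nonneg.2 hr0.le)
        (sub_nonneg.2 (inv_le_one_of_one_le₀ hr)) (by ring)
      rw [smul_zero, add_zero, inv_smul_smul₀ hr0.ne', hψ.zero, smul_zero, add_zero,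
        smul_eq_mul] at h2
      rw [hφ]
      simp only
      rw [map_smul]
      calc r * ψ (J s) ≤ r * (r⁻¹ * ψ (r • J s)) := mul_le_mul_of_nonneg_left h2 hr0.le
        _ = ψ (r • J s) := by rw [mul_inv_cancel_left₀ hr0.ne']) ha (by
      rw [k1]
      exact ENNReal.mul_ne_top hct ENNReal.ofReal_ne_top)
  rw [k1, k2, mul_left_comm, mul_left_comm (ENNReal.ofReal (p + a))] at h1
  have h2 := (ENNReal.mul_le_mul_iff_right hc0 hct).1 h1
  rw [← ENNReal.ofReal_mul (by positivity)] at h2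
  have h3 : ∫⁻ x, ENNReal.ofReal (ph ψ (Q x) ^ a / ph ψ (Q x) * R x) ≠ ∞ := by
    intro h4
    rw [h4, ENNReal.mul_top (ENNReal.ofReal_pos.2 ha).ne', top_le_iff] at h2
    exact ENNReal.ofReal_ne_top h2
  have h4 : Integrable fun x => ph ψ (Q x) ^ a / ph ψ (Q x) * R x := by
    refine ⟨(((hphm.pow_const a).div hphm).mul hm).aestronglyMeasurable, ?_⟩
    rw [hasFiniteIntegral_iff_ofReal (Eventually.of_forall n2)]
    exact lt_top_iff_ne_top.2 h3
  refine ⟨h4, ?_⟩
  rw [← ofReal_integral_eq_lintegral_ofReal h4 (Eventually.of_forall n2),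
    ← ENNReal.ofReal_mul ha.le] at h2
  exact (ENNReal.ofReal_le_ofReal_iff (mul_nonneg (by positivity)
    (integral_nonneg n1))).1 h2

/-- two steps -/
theorem scal2 {m b : ℕ} (Q : E m →ₗ[ℝ] E b) {κ : ℝ} {ψ : E b → ℝ} (hψ : PR κ ψ) {R : E m → ℝ}
    (hm : Measurable R) (h0 : ∀ x, 0 ≤ R x) (hn : ∀ x, R (-x) = R x)
    (hl : ∀ (x y : E m) (t : ℝ), 0 < t → t < 1 → R x ^ (1 - t) * R y ^ t ≤ R ((1 - t) • x + t • y))
    {a Γ : ℝ} (ha : 1 < a) (hΓ : 0 ≤ Γ)
    (hr : (Module.finrank ℝ (LinearMap.range Q) : ℝ) ≤ Γ * (a - 1))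
    (hi : Integrable fun x => ph ψ (Q x) ^ a * R x) :
    Integrable (fun x => ph ψ (Q x) ^ a / ph ψ (Q x) ^ 2 * R x) ∧
    ∫ x, ph ψ (Q x) ^ a / ph ψ (Q x) ^ 2 * R x ≤
      (1 + Γ) ^ 2 * ∫ x, ph ψ (Q x) ^ a * R x := by
  obtain ⟨i1, h1⟩ := scal Q hψ hm h0 hn hl (by linarith : 0 < a) hi
  have e1 : ∀ x, ph ψ (Q x) ^ a / ph ψ (Q x) = ph ψ (Q x) ^ (a - 1) := by
    intro x
    rcases (ph_nonneg (ψ := ψ) (Q x)).eq_or_lt with h3 | h3
    · rw [← h3, Real.zero_rpow (by linarith), Real.zero_rpow (by linarith), zero_div]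
    · rw [Real.rpow_sub_one h3.ne']
  simp only [e1] at i1 h1
  obtain ⟨i2, h2⟩ := scal Q hψ hm h0 hn hl (by linarith : 0 < a - 1) i1
  have e2 : ∀ x, ph ψ (Q x) ^ (a - 1) / ph ψ (Q x) = ph ψ (Q x) ^ a / ph ψ (Q x) ^ 2 := by
    intro x
    rw [← e1, div_div, pow_two]
  simp only [e2] at i2 h2
  refine ⟨i2, ?_⟩
  have n1 : 0 ≤ ∫ x, ph ψ (Q x) ^ a * R x := integral_nonneg fun x =>
    mul_nonneg (Real.rpow_nonneg (ph_nonneg _) _) (h0 x)
  have n2 : 0 ≤ ∫ x, ph ψ (Q x) ^ (a - 1) * R x := integral_nonneg fun x =>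
    mul_nonneg (Real.rpow_nonneg (ph_nonneg _) _) (h0 x)
  generalize (∫ x, ph ψ (Q x) ^ a / ph ψ (Q x) ^ 2 * R x) = X at *
  generalize (∫ x, ph ψ (Q x) ^ a * R x) = Y at *
  generalize (∫ x, ph ψ (Q x) ^ (a - 1) * R x) = Z at *
  generalize (Module.finrank ℝ (LinearMap.range Q) : ℝ) = d at *
  have ha0 : 0 < a := by linarith
  have ha1 : 0 < a - 1 := by linarith
  have h3 : Z ≤ (1 + Γ) * Y := by
    have h4 : (d + a) * Y ≤ a * ((1 + Γ) * Y) := by
      have : d + a ≤ a * (1 + Γ) := by nlinarith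
      calc (d + a) * Y ≤ (a * (1 + Γ)) * Y := mul_le_mul_of_nonneg_right this n1
        _ = a * ((1 + Γ) * Y) := by ring
    exact le_of_mul_le_mul_left (h1.trans h4) ha0
  have h4 : X ≤ (1 + Γ) * Z := by
    have h5 : (d + (a - 1)) * Z ≤ (a - 1) * ((1 + Γ) * Z) := by
      have : d + (a - 1) ≤ (a - 1) * (1 + Γ) := by nlinarith
      calc (d + (a - 1)) * Z ≤ ((a - 1) * (1 + Γ)) * Z := mul_le_mul_of_nonneg_right this n2
        _ = (a - 1) * ((1 + Γ) * Z) := by ring
    exact le_of_mul_le_mul_left (h2.trans h5) ha1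
  calc X ≤ (1 + Γ) * Z := h4
    _ ≤ (1 + Γ) * ((1 + Γ) * Y) := mul_le_mul_of_nonneg_left h3 (by linarith)
    _ = (1 + Γ) ^ 2 * Y := by ring

end Pool.Agent.W5h33.KQ
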