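import Pool.Agent.W5h33.KQ.Qb
import Pool.Agent.W5h33.KQ.Scal

/-!
# Products of powers of `1 - ψ_i (Q_i t)`: moments
-/

set_option autoImplicit false
set_option linter.unusedSectionVars false

namespace Pool.Agent.W5h33.KQ

open MeasureTheory Set Filter Topology
open scoped ENNReal InnerProductSpace
open Pool.Agent.R754.KG (E)

variable {N m : ℕ} {b : Fin N → ℕ} {Q : ∀ i, E m →ₗ[ℝ] E (b i)} {β : Fin N → ℝ}
  {κ : ℝ} {ψ : ∀ i, E (b i) → ℝ}

theorem wt_cs (hψ : ∀ i, PR κ (ψ i)) (hβ : ∀ i, 0 < β i) (hk : ∀ x, (∀ i, Q i x = 0) → x = 0) :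
    HasCompactSupport (wt ψ Q β) := by
  obtain ⟨T, hT⟩ := exT Q β hβ hk
  obtain ⟨R, hR⟩ : ∃ R, R = Real.sqrt (∑ i, β i) := ⟨_, rfl⟩
  have hS0 : 0 ≤ ∑ i, β i := Finset.sum_nonneg fun i _ => (hβ i).le
  have hR0 : 0 ≤ R := by rw [hR]; exact Real.sqrt_nonneg _
  have hcp : IsCompact (T.symm '' Metric.closedBall (0 : E m) R) :=
    (isCompact_closedBall _ _).image T.symm.continuous
  refine HasCompactSupport.of_support_subset_isCompact hcp fun x hx => ?_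
  refine ⟨T x, ?_, T.symm_apply_apply x⟩
  rw [mem_closedBall_zero_iff]
  have h1 := wt_supp hψ hβ hx
  rw [← hT] at h1
  have h2 : ‖T x‖ ^ 2 ≤ R ^ 2 := by rw [hR, Real.sq_sqrt hS0]; exact h1
  exact (abs_le_of_sq_le_sq' h2 hR0).2

/-- continuous functions are integrable -/
theorem wt_int (hψ : ∀ i, PR κ (ψ i)) (hβ : ∀ i, 0 < β i) (hk : ∀ x, (∀ i, Q i x = 0) → x = 0) {f : E m → ℝ}
    (hf : Continuous f) : Integrable fun x => f x * wt ψ Q β x :=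
  (hf.mul (wt_cont hψ fun i => (hβ i).le)).integrable_of_hasCompactSupport
    ((wt_cs hψ hβ hk).mul_left (f := f))

theorem wt_pos (hψ : ∀ i, PR κ (ψ i)) (hβ : ∀ i, 0 < β i) (hk : ∀ x, (∀ i, Q i x = 0) → x = 0) :
    0 < ∫ x, wt ψ Q β x :=
  (wt_cont hψ fun i => (hβ i).le).integral_pos_of_hasCompactSupport_nonneg_nonzero (wt_cs hψ hβ hk)
    (fun x => wt_nonneg x) (x := 0) (by rw [wt_zero hψ]; exact one_ne_zero)

/-- odd functions have mean zero -/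
theorem wt_odd (hψ : ∀ i, PR κ (ψ i)) {f : E m → ℝ} (hf : ∀ x, f (-x) = -f x) : ∫ x, f x * wt ψ Q β x = 0 := by
  have h1 := integral_neg_eq_self (fun x => f x * wt ψ Q β x) (volume : Measure (E m))
  simp only [hf, wt_neg hψ, neg_mul] at h1
  rw [integral_neg] at h1
  linarith

/-- the weight with another exponent of one factor -/
theorem upd_int (hψ : ∀ i, PR κ (ψ i)) (hβ : ∀ i, 0 < β i) (hk : ∀ x, (∀ i, Q i x = 0) → x = 0)
    (i : Fin N) {γ : ℝ} (hγ : 0 < γ) :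
    Integrable fun x => ph (ψ i) (Q i x) ^ γ * wt ψ Q (Function.update β i 0) x := by
  have hβ' : ∀ j, 0 < Function.update β i γ j := by
    intro j
    rcases eq_or_ne j i with h | h
    · subst h
      rw [Function.update_self]
      exact hγ
    · rw [Function.update_of_ne h]
      exact hβ j
  have h1 := wt_int (f := fun _ => (1 : ℝ)) hψ hβ' hk continuous_const
  refine h1.congr (Eventually.of_forall fun x => ?_)
  simp only [one_mul]
  exact wt_upd i γ x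

theorem upd_nonneg (hβ : ∀ i, 0 < β i) (i : Fin N) : ∀ j, 0 ≤ Function.update β i 0 j := by
  intro j
  rcases eq_or_ne j i with h | h
  · subst h
    rw [Function.update_self]
  · rw [Function.update_of_ne h]
    exact (hβ j).le

/-- the scaling inequality for the weight -/
theorem wt_scal (hψ : ∀ i, PR κ (ψ i)) (hβ : ∀ i, 0 < β i) (hk : ∀ x, (∀ i, Q i x = 0) → x = 0)
    (i : Fin N) {γ Γ : ℝ} (hγ : 1 < γ) (hΓ : 0 ≤ Γ)
    (hr : (Module.finrank ℝ (LinearMap.range (Q i)) : ℝ) ≤ Γ * (γ - 1)) :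
    Integrable (fun x => ph (ψ i) (Q i x) ^ γ / ph (ψ i) (Q i x) ^ 2 *
      wt ψ Q (Function.update β i 0) x) ∧
    ∫ x, ph (ψ i) (Q i x) ^ γ / ph (ψ i) (Q i x) ^ 2 * wt ψ Q (Function.update β i 0) x ≤
      (1 + Γ) ^ 2 * ∫ x, ph (ψ i) (Q i x) ^ γ * wt ψ Q (Function.update β i 0) x := by
  have h0 := upd_nonneg hβ i
  exact scal2 (Q i) (hψ i) (wt_cont hψ h0).measurable (fun x => wt_nonneg x)
    (fun x => wt_neg hψ x) (fun x y t h1 h2 => wt_logc hψ h0 x y h1 h2) hγ hΓ hr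
    (upd_int hψ hβ hk i (by linarith))

/-- the second moment of `Q_i x` -/
theorem zmom (hψ : ∀ i, PR κ (ψ i)) (hβ : ∀ i, 0 < β i) (hk : ∀ x, (∀ i, Q i x = 0) → x = 0)
    (i : Fin N) {σ : ℝ} (hσ0 : 0 ≤ σ)
    (hσ : ∀ x, ‖Q i x‖ ^ 2 ≤ σ * ∑ j, β j * ‖Q j x‖ ^ 2) :
    ∫ x, ‖Q i x‖ ^ 2 * wt ψ Q β x ≤ 2 * b i * σ * ∫ x, wt ψ Q β x := by
  obtain ⟨T, hT⟩ := exT Q β hβ hk
  have hQc : Continuous (Q i) := (Q i).continuous_of_finiteDimensional
  have hI := wt_pos hψ hβ hk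
  have key : ∀ l : Fin (b i), ∫ x, (Q i x l) ^ 2 * wt ψ Q β x ≤ 2 * σ * ∫ x, wt ψ Q β x := by
    intro l
    obtain ⟨L, hL⟩ : ∃ L : E m →L[ℝ] ℝ, ∀ y, L y = Q i (T.symm y) l :=
      ⟨LinearMap.toContinuousLinearMap
        (((EuclideanSpace.proj (𝕜 := ℝ) l : E (b i) →L[ℝ] ℝ) : E (b i) →ₗ[ℝ] ℝ) ∘ₗ Q i ∘ₗ
          (T.symm.toLinearEquiv : E m →ₗ[ℝ] E m)), fun y => rfl⟩
    have hLn : ‖L‖ ^ 2 ≤ σ := by
      have h1 : ‖L‖ ≤ Real.sqrt σ := by
        refine ContinuousLinearMap.opNorm_le_bound _ (Real.sqrt_nonneg _) fun y => ?_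
        rw [hL]
        have h2 : ‖Q i (T.symm y) l‖ ≤ ‖Q i (T.symm y)‖ := PiLp.norm_apply_le _ _
        have h3 := hσ (T.symm y)
        rw [← hT, T.apply_symm_apply] at h3
        have h5 : ‖Q i (T.symm y)‖ ^ 2 ≤ (Real.sqrt σ * ‖y‖) ^ 2 := by
          rw [mul_pow, Real.sq_sqrt hσ0]
          exact h3
        exact h2.trans (abs_le_of_sq_le_sq' h5 (by positivity)).2
      calc ‖L‖ ^ 2 ≤ Real.sqrt σ ^ 2 := pow_le_pow_left₀ (norm_nonneg _) h1 2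
        _ = σ := Real.sq_sqrt hσ0
    obtain ⟨c, hc⟩ := poin hψ hβ T hT L L.contDiff
    have h1 : ∀ x, L (T x) = Q i x l := fun x => by rw [hL, T.symm_apply_apply]
    simp only [h1, L.fderiv] at hc
    have hlc : Continuous fun x => Q i x l := (EuclideanSpace.proj (𝕜 := ℝ) l).continuous.comp hQc
    have hodd : ∫ x, (Q i x l) * wt ψ Q β x = 0 := wt_odd hψ (f := fun x => Q i x l) fun x => by
      rw [map_neg]; rfl
    have e1 : ∫ x, (Q i x l - c) ^ 2 * wt ψ Q β x =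
        (∫ x, (Q i x l) ^ 2 * wt ψ Q β x) + c ^ 2 * ∫ x, wt ψ Q β x := by
      have i1 : Integrable fun x => (Q i x l) ^ 2 * wt ψ Q β x :=
        wt_int (f := fun x => (Q i x l) ^ 2) hψ hβ hk (hlc.pow 2)
      have i2 : Integrable fun x => 2 * c * ((Q i x l) * wt ψ Q β x) :=
        (wt_int hψ hβ hk hlc).const_mul (2 * c)
      have i12 : Integrable fun x => (Q i x l) ^ 2 * wt ψ Q β x - 2 * c * ((Q i x l) * wt ψ Q β x) :=
        i1.sub i2
      have i3 := (wt_int hψ hβ hk (continuous_const (y := (1 : ℝ)))).const_mul (c ^ 2)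
      have e2 : (fun x => (Q i x l - c) ^ 2 * wt ψ Q β x) = fun x =>
          ((Q i x l) ^ 2 * wt ψ Q β x - 2 * c * ((Q i x l) * wt ψ Q β x)) +
            c ^ 2 * (1 * wt ψ Q β x) := by
        funext x; ring
      rw [e2, integral_add i12 i3, integral_sub i1 i2, integral_const_mul,
        integral_const_mul, hodd, mul_zero, sub_zero]
      simp only [one_mul]
    rw [e1, integral_const_mul] at hc
    have h2 : 0 ≤ c ^ 2 * ∫ x, wt ψ Q β x := by positivity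
    have h3 : 2 * (‖L‖ ^ 2 * ∫ x, wt ψ Q β x) ≤ 2 * (σ * ∫ x, wt ψ Q β x) := by gcongr
    have h4 : 2 * (σ * ∫ x, wt ψ Q β x) = 2 * σ * ∫ x, wt ψ Q β x := by ring
    linarith
  have e1 : ∫ x, ‖Q i x‖ ^ 2 * wt ψ Q β x = ∑ l, ∫ x, (Q i x l) ^ 2 * wt ψ Q β x := by
    have e3 := integral_finsetSum (μ := (volume : Measure (E m))) Finset.univ
      (f := fun (l : Fin (b i)) x => (Q i x l) ^ 2 * wt ψ Q β x) (fun l _ =>
        wt_int (f := fun x => (Q i x l) ^ 2) hψ hβ hk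
          (((EuclideanSpace.proj (𝕜 := ℝ) l).continuous.comp hQc).pow 2))
    rw [← e3]
    refine integral_congr_ae (Eventually.of_forall fun x => ?_)
    simp only
    rw [EuclideanSpace.norm_sq_eq, Finset.sum_mul]
    refine Finset.sum_congr rfl fun l _ => ?_
    rw [Real.norm_eq_abs, sq_abs]
  rw [e1]
  refine (Finset.sum_le_sum fun l _ => key l).trans (le_of_eq ?_)
  rw [Finset.sum_const, Finset.card_univ, Fintype.card_fin, nsmul_eq_mul]
  ring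

/-- the condition on a constraint -/
def Ok (κ Γ : ℝ) (Q : ∀ i, E m →ₗ[ℝ] E (b i)) (β : Fin N → ℝ) (i : Fin N) : Prop :=
  (Module.finrank ℝ (LinearMap.range (Q i)) : ℝ) ≤ Γ * (β i - 1) ∨
  (2 < β i ∧ ∀ x, 6 * κ * b i * ‖Q i x‖ ^ 2 ≤ ∑ j, β j * ‖Q j x‖ ^ 2)

/-- the hypotheses -/
structure Hy (κ Γ : ℝ) (ψ : ∀ i, E (b i) → ℝ) (Q : ∀ i, E m →ₗ[ℝ] E (b i)) (β : Fin N → ℝ) :
    Prop where
  pr : ∀ i, PR κ (ψ i)
  one : 1 ≤ κ
  nn : 0 ≤ Γ
  two : ∀ i, 1 < β i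
  ok : ∀ i, Ok κ Γ Q β i
  ker : ∀ x, (∀ i, Q i x = 0) → x = 0

variable {Γ : ℝ}

/-- the exponents with `β_i - 2` in place of `β_i` -/
noncomputable def bm (β : Fin N → ℝ) (i : Fin N) : Fin N → ℝ := Function.update β i (β i - 2)

theorem bm_pos (hβ : ∀ i, 0 < β i) {i : Fin N} (hi : 2 < β i) : ∀ j, 0 < bm β i j := by
  intro j
  unfold bm
  rcases eq_or_ne j i with h | h
  · subst h
    rw [Function.update_self]
    linarith
  · rw [Function.update_of_ne h]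
    exact hβ j

theorem bm_sum (i : Fin N) (x : E m) :
    ∑ j, bm β i j * ‖Q j x‖ ^ 2 = (∑ j, β j * ‖Q j x‖ ^ 2) - 2 * ‖Q i x‖ ^ 2 := by
  classical
  rw [← Finset.add_sum_erase _ _ (Finset.mem_univ i),
    ← Finset.add_sum_erase (Finset.univ : Finset (Fin N)) (fun j => β j * ‖Q j x‖ ^ 2)
      (Finset.mem_univ i)]
  have h1 : ∑ j ∈ Finset.univ.erase i, bm β i j * ‖Q j x‖ ^ 2 =
      ∑ j ∈ Finset.univ.erase i, β j * ‖Q j x‖ ^ 2 := by
    refine Finset.sum_congr rfl fun j hj => ?_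
    unfold bm
    rw [Function.update_of_ne (Finset.ne_of_mem_erase hj)]
  rw [h1]
  unfold bm
  rw [Function.update_self]
  ring

theorem wd_bm {i : Fin N} (hi : 2 < β i) (x : E m) : wd ψ Q β i x = wt ψ Q (bm β i) x := by
  unfold wd bm
  rw [wt_fac (β := β) i x, wt_upd i (β i - 2) x]
  rcases (ph_nonneg (ψ := ψ i) (Q i x)).eq_or_lt with h3 | h3
  · rw [← h3, Real.zero_rpow (by linarith), Real.zero_rpow (by linarith)]
    simp
  · have h4 : ph (ψ i) (Q i x) ^ β i =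
        ph (ψ i) (Q i x) ^ (β i - 2) * ph (ψ i) (Q i x) ^ 2 := by
      rw [← Real.rpow_natCast, ← Real.rpow_add h3]
      congr 1
      push_cast
      ring
    have h5 : ph (ψ i) (Q i x) ^ 2 ≠ 0 := (pow_pos h3 2).ne'
    rw [h4]
    field_simp

/-- the weight divided by `(1 - ψ_i(Q_i x))²`, if the constraint is small -/
theorem bm_int (hψ : ∀ i, PR κ (ψ i)) (hκ : 1 ≤ κ) (hβ0 : ∀ i, 0 < β i)
    (hk : ∀ x, (∀ i, Q i x = 0) → x = 0) (i : Fin N) (hbi : 1 ≤ b i) (hi : 2 < β i)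
    (hl : ∀ x, 6 * κ * b i * ‖Q i x‖ ^ 2 ≤ ∑ j, β j * ‖Q j x‖ ^ 2) :
    ∫ x, wt ψ Q (bm β i) x ≤ 9 / 2 * ∫ x, wt ψ Q β x := by
  have hb1 : (1 : ℝ) ≤ b i := by exact_mod_cast hbi
  have hκb : 1 ≤ κ * b i := by nlinarith
  have hB := bm_pos hβ0 hi
  obtain ⟨σ, hσ⟩ : ∃ σ : ℝ, σ = 1 / (4 * (κ * b i)) := ⟨_, rfl⟩
  have hσ0 : 0 ≤ σ := by rw [hσ]; positivity
  have hσ1 : ∀ x, ‖Q i x‖ ^ 2 ≤ σ * ∑ j, bm β i j * ‖Q j x‖ ^ 2 := by
    intro x
    have h1 := hl x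
    rw [bm_sum, hσ, one_div, inv_mul_eq_div, le_div_iff₀ (by positivity)]
    nlinarith [sq_nonneg ‖Q i x‖]
  have h1 := zmom hψ hB hk i hσ0 hσ1
  have hI := wt_pos hψ hB hk
  have h3 : 2 * (b i : ℝ) * σ = 1 / (2 * κ) := by
    rw [hσ]
    field_simp
    norm_num
  rw [h3] at h1
  have hQc : Continuous (Q i) := (Q i).continuous_of_finiteDimensional
  have i0 := wt_int (f := fun _ => (1 : ℝ)) hψ hB hk continuous_const
  have i1 := (wt_int (f := fun _ => (1 : ℝ)) hψ hβ0 hk continuous_const).const_mul (9 / 8)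
  have i3 : Integrable fun x => ψ i (Q i x) * wt ψ Q (bm β i) x :=
    wt_int (f := fun x => ψ i (Q i x)) hψ hB hk ((hψ i).cont.comp hQc)
  have i2 : Integrable fun x => 3 / 2 * (ψ i (Q i x) * wt ψ Q (bm β i) x) := i3.const_mul (3 / 2)
  have i4 : Integrable fun x => κ * (‖Q i x‖ ^ 2 * wt ψ Q (bm β i) x) :=
    (wt_int (f := fun x => ‖Q i x‖ ^ 2) hψ hB hk (hQc.norm.pow 2)).const_mul κ
  have h4 : ∫ x, ψ i (Q i x) * wt ψ Q (bm β i) x ≤ 1 / 2 * ∫ x, wt ψ Q (bm β i) x := by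
    have h5 : ∫ x, ψ i (Q i x) * wt ψ Q (bm β i) x ≤
        ∫ x, κ * (‖Q i x‖ ^ 2 * wt ψ Q (bm β i) x) := by
      refine integral_mono i3 i4 fun x => ?_
      show ψ i (Q i x) * wt ψ Q (bm β i) x ≤ κ * (‖Q i x‖ ^ 2 * wt ψ Q (bm β i) x)
      rw [← mul_assoc]
      exact mul_le_mul_of_nonneg_right ((hψ i).le _) (wt_nonneg _)
    rw [integral_const_mul] at h5
    have h6 := mul_le_mul_of_nonneg_left h1 (by linarith : 0 ≤ κ)
    have h7 : κ * (1 / (2 * κ) * ∫ x, wt ψ Q (bm β i) x) = 1 / 2 * ∫ x, wt ψ Q (bm β i) x := by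
      field_simp
    linarith
  have h5 : ∫ x, 1 * wt ψ Q (bm β i) x ≤ ∫ x, (9 / 8 * (1 * wt ψ Q β x) +
      3 / 2 * (ψ i (Q i x) * wt ψ Q (bm β i) x)) := by
    refine integral_mono i0 (i1.add i2) fun x => ?_
    show 1 * wt ψ Q (bm β i) x ≤
      9 / 8 * (1 * wt ψ Q β x) + 3 / 2 * (ψ i (Q i x) * wt ψ Q (bm β i) x)
    have hw := wt_nonneg (ψ := ψ) (Q := Q) (β := bm β i) x
    rcases (ph_nonneg (ψ := ψ i) (Q i x)).eq_or_lt with h6 | h6
    · have h7 : wt ψ Q (bm β i) x = 0 := by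
        unfold wt
        refine Finset.prod_eq_zero (Finset.mem_univ i) ?_
        rw [← h6, Real.zero_rpow (hB i).ne']
      rw [h7]
      have := wt_nonneg (ψ := ψ) (Q := Q) (β := β) x
      linarith
    · obtain ⟨h7, h8⟩ := ph_of_pos h6
      have h11 : wt ψ Q β x = ph (ψ i) (Q i x) ^ 2 * wt ψ Q (bm β i) x := by
        rw [← wd_bm hi]
        unfold wd
        rw [mul_div_cancel₀ _ (pow_pos h6 2).ne']
      rw [h11, h7]
      have h9 : 1 ≤ 9 / 8 * (1 - ψ i (Q i x)) ^ 2 + 3 / 2 * ψ i (Q i x) := by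
        nlinarith [sq_nonneg (3 * ψ i (Q i x) - 1)]
      have h10 := mul_le_mul_of_nonneg_right h9 hw
      linarith
  rw [integral_add i1 i2] at h5
  simp only [integral_const_mul, one_mul] at h5
  linarith

/-- the average of `ψ_i(Q_i t)`, if the constraint is small -/
theorem zm (hψ : ∀ i, PR κ (ψ i)) (hκ : 1 ≤ κ) (hβ0 : ∀ i, 0 < β i)
    (hk : ∀ x, (∀ i, Q i x = 0) → x = 0) (i : Fin N) (hbi : 1 ≤ b i)
    (hl : ∀ x, 6 * κ * b i * ‖Q i x‖ ^ 2 ≤ ∑ j, β j * ‖Q j x‖ ^ 2) :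
    ∫ x, ψ i (Q i x) * wt ψ Q β x ≤ 1 / 3 * ∫ x, wt ψ Q β x := by
  have hI := wt_pos hψ hβ0 hk
  have hQc : Continuous (Q i) := (Q i).continuous_of_finiteDimensional
  have i3 : Integrable fun x => ψ i (Q i x) * wt ψ Q β x :=
    wt_int (f := fun x => ψ i (Q i x)) hψ hβ0 hk ((hψ i).cont.comp hQc)
  have i4 : Integrable fun x => κ * (‖Q i x‖ ^ 2 * wt ψ Q β x) :=
    (wt_int (f := fun x => ‖Q i x‖ ^ 2) hψ hβ0 hk (hQc.norm.pow 2)).const_mul κ
  have h5 : ∫ x, ψ i (Q i x) * wt ψ Q β x ≤ ∫ x, κ * (‖Q i x‖ ^ 2 * wt ψ Q β x) := by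
    refine integral_mono i3 i4 fun x => ?_
    show ψ i (Q i x) * wt ψ Q β x ≤ κ * (‖Q i x‖ ^ 2 * wt ψ Q β x)
    rw [← mul_assoc]
    exact mul_le_mul_of_nonneg_right ((hψ i).le _) (wt_nonneg _)
  rw [integral_const_mul] at h5
  have hb1 : (1 : ℝ) ≤ b i := by exact_mod_cast hbi
  have hσ1 : ∀ x, ‖Q i x‖ ^ 2 ≤ 1 / (6 * κ * b i) * ∑ j, β j * ‖Q j x‖ ^ 2 := by
    intro x
    rw [one_div, inv_mul_eq_div, le_div_iff₀ (by positivity), mul_comm]
    exact hl x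
  have h1 := zmom hψ hβ0 hk i (by positivity) hσ1
  have h6 := mul_le_mul_of_nonneg_left h1 (by linarith : 0 ≤ κ)
  have h7 : κ * (2 * b i * (1 / (6 * κ * b i)) * ∫ x, wt ψ Q β x) =
      1 / 3 * ∫ x, wt ψ Q β x := by
    field_simp
    norm_num
  linarith

/-- the constraint is large, or the target of `Q_i` has positive dimension -/
theorem Hy.cases (h : Hy κ Γ ψ Q β) (i : Fin N) :
    (Module.finrank ℝ (LinearMap.range (Q i)) : ℝ) ≤ Γ * (β i - 1) ∨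
    (1 ≤ b i ∧ 2 < β i ∧ ∀ x, 6 * κ * b i * ‖Q i x‖ ^ 2 ≤ ∑ j, β j * ‖Q j x‖ ^ 2) := by
  rcases h.ok i with h1 | h1
  · exact .inl h1
  rcases Nat.eq_zero_or_pos (b i) with h0 | h0
  · left
    have h2 := Submodule.finrank_le (LinearMap.range (Q i))
    rw [finrank_euclideanSpace_fin] at h2
    have h3 : Module.finrank ℝ (LinearMap.range (Q i)) = 0 := by omega
    rw [h3]
    have := h.two i
    have := h.nn
    push_cast
    nlinarith
  · exact .inr ⟨h0, h1⟩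

/-- the weight divided by `(1 - ψ_i(Q_i x))²` -/
theorem Hy.wd_int (h : Hy κ Γ ψ Q β) (i : Fin N) : Integrable (wd ψ Q β i) ∧
    ∫ x, wd ψ Q β i x ≤ (3 + Γ) ^ 2 * ∫ x, wt ψ Q β x := by
  have hβ0 : ∀ i, 0 < β i := fun i => by linarith [h.two i]
  have hΓ := h.nn
  have hI := wt_pos h.pr hβ0 h.ker
  rcases h.cases i with hr | ⟨hb, hi, hl⟩
  · obtain ⟨h1, h2⟩ := wt_scal h.pr hβ0 h.ker i (h.two i) h.nn hr
    have e1 : ∀ x, ph (ψ i) (Q i x) ^ β i / ph (ψ i) (Q i x) ^ 2 *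
        wt ψ Q (Function.update β i 0) x = wd ψ Q β i x := by
      intro x
      unfold wd
      rw [wt_fac (β := β) i x]
      ring
    simp only [e1] at h1 h2
    simp only [← wt_fac] at h2
    refine ⟨h1, h2.trans (mul_le_mul_of_nonneg_right ?_ hI.le)⟩
    nlinarith
  · have e1 : wd ψ Q β i = wt ψ Q (bm β i) := funext fun x => wd_bm hi x
    rw [e1]
    have i1 := wt_int (f := fun _ => (1 : ℝ)) h.pr (bm_pos hβ0 hi) h.ker continuous_const
    simp only [one_mul] at i1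
    refine ⟨i1, (bm_int h.pr h.one hβ0 h.ker i hb hi hl).trans
      (mul_le_mul_of_nonneg_right ?_ hI.le)⟩
    nlinarith

/-- the average of the square of `1 - ψ_i(Q_i x)` -/
theorem Hy.sq_low (h : Hy κ Γ ψ Q β) (i : Fin N) :
    ∫ x, wt ψ Q β x ≤ (3 + Γ) ^ 2 * ∫ x, ph (ψ i) (Q i x) ^ 2 * wt ψ Q β x := by
  have hβ0 : ∀ i, 0 < β i := fun i => by linarith [h.two i]
  have h0 := h.two i
  have hΓ := h.nn
  have hn : 0 ≤ ∫ x, ph (ψ i) (Q i x) ^ 2 * wt ψ Q β x :=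
    integral_nonneg fun x => mul_nonneg (sq_nonneg _) (wt_nonneg _)
  rcases h.cases i with hr | ⟨hb, hi, hl⟩
  · obtain ⟨h1, h2⟩ := wt_scal (γ := β i + 2) h.pr hβ0 h.ker i (by linarith) h.nn (by
      refine hr.trans ?_
      nlinarith)
    have e1 : ∀ x, ph (ψ i) (Q i x) ^ (β i + 2) =
        ph (ψ i) (Q i x) ^ 2 * ph (ψ i) (Q i x) ^ β i := by
      intro x
      rcases (ph_nonneg (ψ := ψ i) (Q i x)).eq_or_lt with h3 | h3
      · rw [← h3, Real.zero_rpow (by linarith)]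
        norm_num
      · rw [Real.rpow_add h3, mul_comm]
        norm_num
    have e2 : ∀ x, ph (ψ i) (Q i x) ^ (β i + 2) / ph (ψ i) (Q i x) ^ 2 =
        ph (ψ i) (Q i x) ^ β i := by
      intro x
      rcases (ph_nonneg (ψ := ψ i) (Q i x)).eq_or_lt with h3 | h3
      · rw [← h3, Real.zero_rpow (by linarith), Real.zero_rpow (by linarith), zero_div]
      · rw [e1, mul_div_cancel_left₀ _ (pow_pos h3 2).ne']
    simp only [e2] at h2
    simp only [e1, mul_assoc] at h2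
    simp only [← wt_fac] at h2
    refine h2.trans (mul_le_mul_of_nonneg_right ?_ hn)
    nlinarith
  · have h2 := zm h.pr h.one hβ0 h.ker i hb hl
    have hQc : Continuous (Q i) := (Q i).continuous_of_finiteDimensional
    have i1 : Integrable fun x => (1 : ℝ) * wt ψ Q β x :=
      wt_int (f := fun _ => (1 : ℝ)) h.pr hβ0 h.ker continuous_const
    have i2 : Integrable fun x => 2 * (ψ i (Q i x) * wt ψ Q β x) :=
      (wt_int (f := fun x => ψ i (Q i x)) h.pr hβ0 h.ker ((h.pr i).cont.comp hQc)).const_mul 2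
    have i3 : Integrable fun x => ph (ψ i) (Q i x) ^ 2 * wt ψ Q β x :=
      wt_int (f := fun x => ph (ψ i) (Q i x) ^ 2) h.pr hβ0 h.ker
        (((h.pr i).ph_cont.comp hQc).pow 2)
    have h3 : ∫ x, (1 * wt ψ Q β x - 2 * (ψ i (Q i x) * wt ψ Q β x)) ≤
        ∫ x, ph (ψ i) (Q i x) ^ 2 * wt ψ Q β x := by
      refine integral_mono (i1.sub i2) i3 fun x => ?_
      show 1 * wt ψ Q β x - 2 * (ψ i (Q i x) * wt ψ Q β x) ≤
        ph (ψ i) (Q i x) ^ 2 * wt ψ Q β x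
      have hw := wt_nonneg (ψ := ψ) (Q := Q) (β := β) x
      have h4 : 1 - 2 * ψ i (Q i x) ≤ ph (ψ i) (Q i x) ^ 2 := by
        rcases (ph_nonneg (ψ := ψ i) (Q i x)).eq_or_lt with h6 | h6
        · have h8 : 1 - ψ i (Q i x) ≤ ph (ψ i) (Q i x) := le_max_left _ _
          have h9 := (h.pr i).nn (Q i x)
          rw [← h6] at h8 ⊢
          linarith
        · obtain ⟨h7, h8⟩ := ph_of_pos h6
          rw [h7]
          nlinarith [sq_nonneg (ψ i (Q i x))]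
      have h5 := mul_le_mul_of_nonneg_right h4 hw
      linarith
    rw [integral_sub i1 i2] at h3
    simp only [integral_const_mul, one_mul] at h3
    have h4 : (3 : ℝ) ≤ (3 + Γ) ^ 2 := by nlinarith
    have h5 := mul_le_mul_of_nonneg_right h4 hn
    linarith

/-- the affinity of two translates -/
theorem Hy.aff (h : Hy κ Γ ψ Q β) (u : E m)
    (hu : 289 * κ ^ 2 * (3 + Γ) ^ 2 * ∑ i, β i * ‖Q i u‖ ^ 2 ≤ 1) :
    Integrable (fun x => Real.sqrt (wt ψ Q β (x + u) * wt ψ Q β (x - u))) ∧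
    3 / 4 * ∫ x, wt ψ Q β x ≤ ∫ x, Real.sqrt (wt ψ Q β (x + u) * wt ψ Q β (x - u)) := by
  have hψ := h.pr
  have hk := h.ker
  have hβ2 := h.two
  have hβ0 : ∀ i, 0 < β i := fun i => by linarith [hβ2 i]
  have hI := wt_pos hψ hβ0 hk
  have i0 : Integrable (wt ψ Q β) := by
    have := wt_int (f := fun _ => (1 : ℝ)) hψ hβ0 hk continuous_const
    simpa only [one_mul] using this
  have ib : ∀ i, Integrable (wd ψ Q β i) := fun i => (h.wd_int i).1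
  have hwc : Continuous (wt ψ Q β) := wt_cont hψ fun i => (hβ0 i).le
  have hsi : Integrable (fun x => Real.sqrt (wt ψ Q β (x + u) * wt ψ Q β (x - u))) := by
    have h1 : Integrable fun x => wt ψ Q β (x + u) := i0.comp_add_right u
    have h2 : Integrable fun x => wt ψ Q β (x - u) := i0.comp_sub_right u
    refine (h1.add h2).mono' ?_ (Eventually.of_forall fun x => ?_)
    · exact (Real.continuous_sqrt.comp ((hwc.comp (continuous_id.add continuous_const)).mul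
        (hwc.comp (continuous_id.sub continuous_const)))).aestronglyMeasurable
    · show ‖Real.sqrt (wt ψ Q β (x + u) * wt ψ Q β (x - u))‖ ≤
        wt ψ Q β (x + u) + wt ψ Q β (x - u)
      have h3 := wt_nonneg (ψ := ψ) (Q := Q) (β := β) (x + u)
      have h4 := wt_nonneg (ψ := ψ) (Q := Q) (β := β) (x - u)
      rw [Real.norm_of_nonneg (Real.sqrt_nonneg _)]
      refine Real.sqrt_le_iff.2 ⟨by linarith, ?_⟩
      nlinarith
  refine ⟨hsi, ?_⟩
  have h1 : ∫ x, (wt ψ Q β x - ∑ i, 66 * κ ^ 2 * β i * ‖Q i u‖ ^ 2 * wd ψ Q β i x) ≤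
      ∫ x, Real.sqrt (wt ψ Q β (x + u) * wt ψ Q β (x - u)) :=
    integral_mono (i0.sub (integrable_finsetSum _ fun i _ => (ib i).const_mul _)) hsi
      fun x => wt_aff hψ h.one (fun i => (hβ2 i).le) x u
  rw [integral_sub i0 (integrable_finsetSum _ fun i _ => (ib i).const_mul _),
    integral_finsetSum _ fun i _ => (ib i).const_mul _] at h1
  have h2 : ∑ i, ∫ x, 66 * κ ^ 2 * β i * ‖Q i u‖ ^ 2 * wd ψ Q β i x ≤
      66 * κ ^ 2 * (3 + Γ) ^ 2 * (∑ i, β i * ‖Q i u‖ ^ 2) * ∫ x, wt ψ Q β x := by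
    rw [Finset.mul_sum, Finset.sum_mul]
    refine Finset.sum_le_sum fun i _ => ?_
    rw [integral_const_mul]
    have h3 := (h.wd_int i).2
    have h4 : 0 ≤ 66 * κ ^ 2 * β i * ‖Q i u‖ ^ 2 := by have := hβ0 i; positivity
    calc 66 * κ ^ 2 * β i * ‖Q i u‖ ^ 2 * ∫ x, wd ψ Q β i x
        ≤ 66 * κ ^ 2 * β i * ‖Q i u‖ ^ 2 * ((3 + Γ) ^ 2 * ∫ x, wt ψ Q β x) :=
          mul_le_mul_of_nonneg_left h3 h4
      _ = 66 * κ ^ 2 * (3 + Γ) ^ 2 * (β i * ‖Q i u‖ ^ 2) * ∫ x, wt ψ Q β x := by ring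
  have h3 : 66 * κ ^ 2 * (3 + Γ) ^ 2 * (∑ i, β i * ‖Q i u‖ ^ 2) * ∫ x, wt ψ Q β x ≤
      1 / 4 * ∫ x, wt ψ Q β x := by
    refine mul_le_mul_of_nonneg_right ?_ hI.le
    have h5 : 0 ≤ κ ^ 2 * (3 + Γ) ^ 2 * ∑ i, β i * ‖Q i u‖ ^ 2 :=
      mul_nonneg (by positivity) (Finset.sum_nonneg fun i _ => by have := hβ0 i; positivity)
    nlinarith
  linarith

theorem lin7 {f1 f2 f3 f4 f5 f6 f7 : E m → ℝ} (h1 : Integrable f1) (h2 : Integrable f2)
    (h3 : Integrable f3) (h4 : Integrable f4) (h5 : Integrable f5) (h6 : Integrable f6)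
    (h7 : Integrable f7) : ∫ x, (f1 x + f2 x + f3 x - f4 x + f5 x + f6 x - f7 x) =
      (∫ x, f1 x) + (∫ x, f2 x) + (∫ x, f3 x) - (∫ x, f4 x) + (∫ x, f5 x) + (∫ x, f6 x) -
        ∫ x, f7 x := by
  have k2 : Integrable fun x => f1 x + f2 x := h1.add h2
  have k3 : Integrable fun x => f1 x + f2 x + f3 x := k2.add h3
  have k4 : Integrable fun x => f1 x + f2 x + f3 x - f4 x := k3.sub h4
  have k5 : Integrable fun x => f1 x + f2 x + f3 x - f4 x + f5 x := k4.add h5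
  have k6 : Integrable fun x => f1 x + f2 x + f3 x - f4 x + f5 x + f6 x := k5.add h6
  rw [integral_sub k6 h7, integral_add k5 h6, integral_add k4 h5, integral_sub k3 h4,
    integral_add k2 h3, integral_add h1 h2]

/-- lower bound for the second moments -/
theorem Hy.vlow (h : Hy κ Γ ψ Q β) (u θ : E m)
    (hu : 289 * κ ^ 2 * (3 + Γ) ^ 2 * ∑ i, β i * ‖Q i u‖ ^ 2 ≤ 1) :
    ⟪u, θ⟫_ℝ ^ 2 * ∫ x, wt ψ Q β x ≤ ∫ x, ⟪x, θ⟫_ℝ ^ 2 * wt ψ Q β x := by
  have hψ := h.pr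
  have hk := h.ker
  have hβ2 := h.two
  have hβ0 : ∀ i, 0 < β i := fun i => by linarith [hβ2 i]
  obtain ⟨hsi, haf⟩ := h.aff u hu
  obtain ⟨d, hd⟩ : ∃ d : ℝ, d = ⟪u, θ⟫_ℝ := ⟨_, rfl⟩
  obtain ⟨w, hw⟩ : ∃ w : E m → ℝ, w = wt ψ Q β := ⟨_, rfl⟩
  have hw0 : ∀ x, 0 ≤ w x := fun x => by rw [hw]; exact wt_nonneg x
  have hwc : Continuous w := by rw [hw]; exact wt_cont hψ fun i => (hβ0 i).le
  have hint : ∀ f : E m → ℝ, Continuous f → Integrable fun x => f x * w x := fun f hf => by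
    rw [hw]; exact wt_int hψ hβ0 hk hf
  rw [← hw] at hsi haf ⊢
  rw [← hd]
  obtain ⟨S, hS⟩ : ∃ S, S = ∫ x, w x := ⟨_, rfl⟩
  obtain ⟨V, hV⟩ : ∃ V, V = ∫ x, ⟪x, θ⟫_ℝ ^ 2 * w x := ⟨_, rfl⟩
  obtain ⟨P, hP⟩ : ∃ P, P = ∫ x, Real.sqrt (w (x + u) * w (x - u)) := ⟨_, rfl⟩
  rw [← hS, ← hP] at haf
  rw [← hS, ← hV]
  have hodd : ∫ x, ⟪x, θ⟫_ℝ * w x = 0 := by
    rw [hw]
    exact wt_odd hψ (f := fun x => ⟪x, θ⟫_ℝ) fun x => inner_neg_left _ _
  have ic : Continuous fun x : E m => ⟪x, θ⟫_ℝ := by fun_prop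
  -- integrals of translates
  have tr : ∀ (f : E m → ℝ) (v : E m), Continuous f → Integrable (fun x => f x * w (x + v)) ∧
      ∫ x, f x * w (x + v) = ∫ x, f (x - v) * w x := by
    intro f v hf
    have h1 : (fun x => f x * w (x + v)) = fun x => (fun y => f (y - v) * w y) (x + v) := by
      funext x
      simp only [add_sub_cancel_right]
    rw [h1]
    exact ⟨(hint _ (hf.comp (continuous_id.sub continuous_const))).comp_add_right v,
      integral_add_right_eq_self (fun y => f (y - v) * w y) v⟩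
  have q2 : ∀ v : E m, ∫ x, ⟪x, θ⟫_ℝ ^ 2 * w (x + v) = V + ⟪v, θ⟫_ℝ ^ 2 * S := by
    intro v
    rw [(tr (fun x => ⟪x, θ⟫_ℝ ^ 2) v (ic.pow 2)).2]
    have e1 : (fun x => ⟪x - v, θ⟫_ℝ ^ 2 * w x) = fun x =>
        (⟪x, θ⟫_ℝ ^ 2 * w x - 2 * ⟪v, θ⟫_ℝ * (⟪x, θ⟫_ℝ * w x)) + ⟪v, θ⟫_ℝ ^ 2 * (1 * w x) := by
      funext x
      rw [inner_sub_left]
      ring
    have i1 : Integrable fun x => ⟪x, θ⟫_ℝ ^ 2 * w x := hint (fun x => ⟪x, θ⟫_ℝ ^ 2) (ic.pow 2)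
    have i2 : Integrable fun x => 2 * ⟪v, θ⟫_ℝ * (⟪x, θ⟫_ℝ * w x) :=
      (hint _ ic).const_mul (2 * ⟪v, θ⟫_ℝ)
    have i12 : Integrable fun x => ⟪x, θ⟫_ℝ ^ 2 * w x - 2 * ⟪v, θ⟫_ℝ * (⟪x, θ⟫_ℝ * w x) :=
      i1.sub i2
    have i3 := (hint (fun _ => (1 : ℝ)) continuous_const).const_mul (⟪v, θ⟫_ℝ ^ 2)
    rw [e1, integral_add i12 i3, integral_sub i1 i2, integral_const_mul,
      integral_const_mul, hodd, mul_zero, sub_zero]
    simp only [one_mul]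
    rw [hV, hS]
  have q1 : ∀ v : E m, ∫ x, ⟪x, θ⟫_ℝ * w (x + v) = -(⟪v, θ⟫_ℝ * S) := by
    intro v
    rw [(tr (fun x => ⟪x, θ⟫_ℝ) v ic).2]
    have e1 : (fun x => ⟪x - v, θ⟫_ℝ * w x) = fun x =>
        ⟪x, θ⟫_ℝ * w x - ⟪v, θ⟫_ℝ * (1 * w x) := by
      funext x
      rw [inner_sub_left]
      ring
    have i1 := hint _ ic
    have i3 := (hint (fun _ => (1 : ℝ)) continuous_const).const_mul ⟪v, θ⟫_ℝ
    rw [e1, integral_sub i1 i3, integral_const_mul, hodd, zero_sub]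
    simp only [one_mul]
    rw [hS]
  have q0 : ∀ v : E m, ∫ x, w (x + v) = S := by
    intro v
    rw [hS]
    exact integral_add_right_eq_self w v
  -- square roots
  obtain ⟨A, hA⟩ : ∃ A : E m → ℝ, A = fun x => Real.sqrt (w (x + u)) := ⟨_, rfl⟩
  obtain ⟨B, hB⟩ : ∃ B : E m → ℝ, B = fun x => Real.sqrt (w (x + -u)) := ⟨_, rfl⟩
  have hA2 : ∀ x, A x ^ 2 = w (x + u) := fun x => by rw [hA]; exact Real.sq_sqrt (hw0 _)
  have hB2 : ∀ x, B x ^ 2 = w (x + -u) := fun x => by rw [hB]; exact Real.sq_sqrt (hw0 _)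
  have hAB : ∀ x, A x * B x = Real.sqrt (w (x + u) * w (x - u)) := fun x => by
    rw [hA, hB, sub_eq_add_neg]
    exact (Real.sqrt_mul (hw0 _) _).symm
  have iA2 : ∀ f : E m → ℝ, Continuous f → Integrable fun x => f x * A x ^ 2 := fun f hf => by
    simp only [hA2]; exact (tr f u hf).1
  have iB2 : ∀ f : E m → ℝ, Continuous f → Integrable fun x => f x * B x ^ 2 := fun f hf => by
    simp only [hB2]; exact (tr f (-u) hf).1
  have iAB : Integrable fun x => A x * B x := by simp only [hAB]; exact hsi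
  obtain ⟨X, hX⟩ : ∃ X : E m → ℝ, X = fun x => ⟪x, θ⟫_ℝ := ⟨_, rfl⟩
  have hXc : Continuous X := by rw [hX]; exact ic
  have a2 : ∫ x, X x ^ 2 * A x ^ 2 = V + d ^ 2 * S := by
    simp only [hA2, hX]; rw [q2, ← hd]
  have b2 : ∫ x, X x ^ 2 * B x ^ 2 = V + d ^ 2 * S := by
    simp only [hB2, hX]; rw [q2, inner_neg_left, ← hd]; ring
  have a1 : ∫ x, X x * A x ^ 2 = -(d * S) := by
    simp only [hA2, hX]; rw [q1, ← hd]
  have b1 : ∫ x, X x * B x ^ 2 = d * S := by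
    simp only [hB2, hX]; rw [q1, inner_neg_left, ← hd]; ring
  have a0 : ∫ x, 1 * A x ^ 2 = S := by simp only [hA2, one_mul]; exact q0 u
  have b0 : ∫ x, 1 * B x ^ 2 = S := by simp only [hB2, one_mul]; exact q0 (-u)
  have ab : ∫ x, A x * B x = P := by simp only [hAB]; rw [hP]
  -- the quadratic expression
  have hpt : ∀ x, 0 ≤ 2 * (X x ^ 2 * A x ^ 2) + 2 * (X x ^ 2 * B x ^ 2) +
      8 * d * (X x * A x ^ 2) - 8 * d * (X x * B x ^ 2) + 16 * d ^ 2 * (1 * A x ^ 2) +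
      16 * d ^ 2 * (1 * B x ^ 2) - 32 * d ^ 2 * (A x * B x) := by
    intro x
    nlinarith [sq_nonneg (X x * (A x + B x) + 4 * d * (A x - B x)),
      sq_nonneg (X x * (A x - B x))]
  have j1 := (iA2 (fun x => X x ^ 2) (hXc.pow 2)).const_mul 2
  have j2 := (iB2 (fun x => X x ^ 2) (hXc.pow 2)).const_mul 2
  have j3 := (iA2 _ hXc).const_mul (8 * d)
  have j4 := (iB2 _ hXc).const_mul (8 * d)
  have j5 := (iA2 (fun _ => (1 : ℝ)) continuous_const).const_mul (16 * d ^ 2)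
  have j6 := (iB2 (fun _ => (1 : ℝ)) continuous_const).const_mul (16 * d ^ 2)
  have j7 := iAB.const_mul (32 * d ^ 2)
  have hI : 0 ≤ ∫ x, (2 * (X x ^ 2 * A x ^ 2) + 2 * (X x ^ 2 * B x ^ 2) +
      8 * d * (X x * A x ^ 2) - 8 * d * (X x * B x ^ 2) + 16 * d ^ 2 * (1 * A x ^ 2) +
      16 * d ^ 2 * (1 * B x ^ 2) - 32 * d ^ 2 * (A x * B x)) := integral_nonneg hpt
  rw [lin7 j1 j2 j3 j4 j5 j6 j7] at hI
  simp only [integral_const_mul, one_mul] at hI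
  simp only [one_mul] at a0 b0
  rw [a2, b2, a1, b1, a0, b0, ab] at hI
  have hd2 : 0 ≤ d ^ 2 := sq_nonneg d
  have h1 := mul_le_mul_of_nonneg_left haf hd2
  nlinarith

end Pool.Agent.W5h33.KQ
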