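import Mathlib

/-!
# Products of powers of `1 - ψ_i (Q_i t)`: pointwise inequalities
-/

set_option autoImplicit false
set_option linter.unusedSectionVars false

namespace Pool.Agent.W5h33.KQ

open Set Filter Topology
open scoped InnerProductSpace

section one

variable {V : Type} [NormedAddCommGroup V] [InnerProductSpace ℝ V]

/-- even functions which are uniformly convex and uniformly smooth -/
structure PR (κ : ℝ) (ψ : V → ℝ) : Prop where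
  zero : ψ 0 = 0
  even : ∀ s, ψ (-s) = ψ s
  low : ConvexOn ℝ univ fun s => ψ s - ‖s‖ ^ 2
  upp : ConvexOn ℝ univ fun s => κ * ‖s‖ ^ 2 - ψ s

variable {κ : ℝ} {ψ : V → ℝ}

theorem add_sq (a b : V) : ‖a + b‖ ^ 2 = ‖a‖ ^ 2 + 2 * ⟪a, b⟫_ℝ + ‖b‖ ^ 2 := norm_add_sq_real a b

theorem sub_sq (a b : V) : ‖a - b‖ ^ 2 = ‖a‖ ^ 2 - 2 * ⟪a, b⟫_ℝ + ‖b‖ ^ 2 := norm_sub_sq_real a b

theorem mid_conv {g : V → ℝ} (h : ConvexOn ℝ univ g) (a b : V) : 2 * g a ≤ g (a + b) + g (a - b) := by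
  have h1 := h.2 (mem_univ (a + b)) (mem_univ (a - b)) (by norm_num : (0 : ℝ) ≤ 1 / 2)
    (by norm_num : (0 : ℝ) ≤ 1 / 2) (by norm_num)
  have e : (1 / 2 : ℝ) • (a + b) + (1 / 2 : ℝ) • (a - b) = a := by module
  rw [e] at h1
  simp only [smul_eq_mul] at h1
  linarith

theorem PR.sd_low (h : PR κ ψ) (a b : V) : 2 * ψ a + 2 * ‖b‖ ^ 2 ≤ ψ (a + b) + ψ (a - b) := by
  have h1 := mid_conv h.low a b
  rw [add_sq, sub_sq] at h1
  linarith

theorem PR.sd_upp (h : PR κ ψ) (a b : V) :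
    ψ (a + b) + ψ (a - b) ≤ 2 * ψ a + 2 * κ * ‖b‖ ^ 2 := by
  have h1 := mid_conv h.upp a b
  rw [add_sq, sub_sq] at h1
  linarith

theorem PR.ge (h : PR κ ψ) (s : V) : ‖s‖ ^ 2 ≤ ψ s := by
  have h1 := h.sd_low 0 s
  rw [h.zero, zero_add, zero_sub, h.even] at h1
  linarith

theorem PR.le (h : PR κ ψ) (s : V) : ψ s ≤ κ * ‖s‖ ^ 2 := by
  have h1 := h.sd_upp 0 s
  rw [h.zero, zero_add, zero_sub, h.even] at h1
  linarith

theorem PR.nn (h : PR κ ψ) (s : V) : 0 ≤ ψ s := (sq_nonneg _).trans (h.ge s)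

theorem sq_conv : ConvexOn ℝ univ fun s : V => ‖s‖ ^ 2 := by
  refine ⟨convex_univ, fun p _ q _ c d hc hd hcd => ?_⟩
  have h4 : ‖c • p + d • q‖ ≤ c * ‖p‖ + d * ‖q‖ := by
    refine (norm_add_le _ _).trans ?_
    rw [norm_smul, norm_smul, Real.norm_of_nonneg hc, Real.norm_of_nonneg hd]
  have h5 := pow_le_pow_left₀ (norm_nonneg _) h4 2
  have hd' : d = 1 - c := by linarith
  have h6 : (c * ‖p‖ + d * ‖q‖) ^ 2 =
      c * ‖p‖ ^ 2 + d * ‖q‖ ^ 2 - c * d * (‖p‖ - ‖q‖) ^ 2 := by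
    rw [hd']; ring
  have h7 : 0 ≤ c * d * (‖p‖ - ‖q‖) ^ 2 := by positivity
  show ‖c • p + d • q‖ ^ 2 ≤ c * ‖p‖ ^ 2 + d * ‖q‖ ^ 2
  linarith

theorem PR.conv (h : PR κ ψ) : ConvexOn ℝ univ ψ := by
  have h1 := h.low.add sq_conv
  have e : (fun s => ψ s - ‖s‖ ^ 2) + (fun s => ‖s‖ ^ 2) = ψ := by
    funext s
    simp
  rwa [e] at h1

theorem PR.cont [FiniteDimensional ℝ V] (h : PR κ ψ) : Continuous ψ := by
  have := h.conv.continuousOn isOpen_univ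
  exact continuousOn_univ.1 this

theorem PR.mono {κ' : ℝ} (h : PR κ ψ) (hk : κ ≤ κ') : PR κ' ψ := by
  refine ⟨h.zero, h.even, h.low, ?_⟩
  have h1 := h.upp.add (sq_conv.smul (by linarith : 0 ≤ κ' - κ))
  have e : (fun s => κ * ‖s‖ ^ 2 - ψ s) + (fun s => (κ' - κ) • ‖s‖ ^ 2) =
      fun s => κ' * ‖s‖ ^ 2 - ψ s := by
    funext s
    simp only [Pi.add_apply, smul_eq_mul]
    ring
  rwa [e] at h1

/-- differences of `ψ` -/
theorem PR.diff (h : PR κ ψ) (s v : V) :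
    ψ (s + v) - ψ (s - v) ≤ 8 * κ * ‖v‖ * (‖s‖ + ‖v‖) := by
  rcases eq_or_ne v 0 with rfl | hv
  · simp
  have hvn : 0 < ‖v‖ := norm_pos_iff.2 hv
  obtain ⟨L, hL⟩ : ∃ L : ℝ, L = ‖s‖ + ‖v‖ := ⟨_, rfl⟩
  have hL0 : 0 < L := by rw [hL]; have := norm_nonneg s; linarith
  obtain ⟨y, hy⟩ : ∃ y : V, y = s + v + (L / ‖v‖) • v := ⟨_, rfl⟩
  have hy1 : ‖y‖ ≤ 2 * L := by
    rw [hy]
    refine (norm_add_le _ _).trans ?_
    have h1 := norm_add_le s v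
    have h2 : ‖(L / ‖v‖) • v‖ = L := by
      rw [norm_smul, Real.norm_of_nonneg (by positivity), div_mul_cancel₀ _ hvn.ne']
    rw [h2]
    linarith
  have hD : 0 < L + 2 * ‖v‖ := by linarith
  have h1 := h.conv.2 (mem_univ (s - v)) (mem_univ y)
    (show (0 : ℝ) ≤ L / (L + 2 * ‖v‖) by positivity)
    (show (0 : ℝ) ≤ 2 * ‖v‖ / (L + 2 * ‖v‖) by positivity) (by field_simp)
  have e : (L / (L + 2 * ‖v‖)) • (s - v) + (2 * ‖v‖ / (L + 2 * ‖v‖)) • y = s + v := by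
    rw [hy]
    have e1 : (2 * ‖v‖ / (L + 2 * ‖v‖)) • (s + v + (L / ‖v‖) • v) =
        (2 * ‖v‖ / (L + 2 * ‖v‖)) • (s + v) + (2 * L / (L + 2 * ‖v‖)) • v := by
      rw [smul_add, smul_smul]
      congr 2
      field_simp
    rw [e1]
    have e2 : (L / (L + 2 * ‖v‖)) • (s - v) + ((2 * ‖v‖ / (L + 2 * ‖v‖)) • (s + v) +
        (2 * L / (L + 2 * ‖v‖)) • v) = (L / (L + 2 * ‖v‖) + 2 * ‖v‖ / (L + 2 * ‖v‖)) • (s + v) := by
      module
    rw [e2]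
    have e3 : L / (L + 2 * ‖v‖) + 2 * ‖v‖ / (L + 2 * ‖v‖) = 1 := by field_simp
    rw [e3, one_smul]
  rw [e] at h1
  simp only [smul_eq_mul] at h1
  have h2 : (L + 2 * ‖v‖) * ψ (s + v) ≤ L * ψ (s - v) + 2 * ‖v‖ * ψ y := by
    have h3 := mul_le_mul_of_nonneg_left h1 hD.le
    have h4 : (L + 2 * ‖v‖) * (L / (L + 2 * ‖v‖) * ψ (s - v) + 2 * ‖v‖ / (L + 2 * ‖v‖) * ψ y) =
        L * ψ (s - v) + 2 * ‖v‖ * ψ y := by field_simp
    rw [h4] at h3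
    exact h3
  have hκ : 0 ≤ κ := by
    have h3 := h.ge v
    have h4 := h.le v
    have h5 : 0 < ‖v‖ ^ 2 := by positivity
    by_contra hc
    push Not at hc
    nlinarith
  have h3 : ψ y ≤ κ * (2 * L) ^ 2 :=
    (h.le y).trans (mul_le_mul_of_nonneg_left (pow_le_pow_left₀ (norm_nonneg _) hy1 2) hκ)
  have h4 := h.nn (s + v)
  have h5 : L * (ψ (s + v) - ψ (s - v)) ≤ L * (8 * κ * ‖v‖ * L) := by nlinarith
  rw [← hL]
  exact le_of_mul_le_mul_left h5 hL0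

/-- `(1 - ψ(s))₊` -/
noncomputable def ph (ψ : V → ℝ) (s : V) : ℝ := max (1 - ψ s) 0

theorem ph_nonneg (s : V) : 0 ≤ ph ψ s := le_max_right _ _

theorem PR.ph_le_one (h : PR κ ψ) (s : V) : ph ψ s ≤ 1 :=
  max_le (by linarith [h.nn s]) zero_le_one

theorem ph_of_pos {s : V} (h : 0 < ph ψ s) : ph ψ s = 1 - ψ s ∧ ψ s < 1 := by
  unfold ph at h ⊢
  rcases lt_max_iff.1 h with h1 | h1
  · exact ⟨max_eq_left h1.le, by linarith⟩
  · exact absurd h1 (lt_irrefl _)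

theorem PR.ph_neg (h : PR κ ψ) (s : V) : ph ψ (-s) = ph ψ s := by unfold ph; rw [h.even]

theorem PR.ph_zero (h : PR κ ψ) : ph ψ 0 = 1 := by unfold ph; rw [h.zero]; simp

theorem PR.ph_cont [FiniteDimensional ℝ V] (h : PR κ ψ) : Continuous (ph ψ) :=
  (continuous_const.sub h.cont).max continuous_const

/-- strong log-concavity -/
theorem PR.ph_strong (h : PR κ ψ) (a b : V) :
    ph ψ (a + b) * ph ψ (a - b) ≤ ph ψ a ^ 2 * Real.exp (-(2 * ‖b‖ ^ 2)) := by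
  rcases (ph_nonneg (ψ := ψ) (a + b)).eq_or_lt with h1 | h1
  · rw [← h1, zero_mul]; positivity
  rcases (ph_nonneg (ψ := ψ) (a - b)).eq_or_lt with h2 | h2
  · rw [← h2, mul_zero]; positivity
  obtain ⟨e1, l1⟩ := ph_of_pos h1
  obtain ⟨e2, l2⟩ := ph_of_pos h2
  have s1 := h.sd_low a b
  have hB := sq_nonneg ‖b‖
  have hA := h.nn a
  have e3 : ph ψ a = 1 - ψ a := max_eq_left (by linarith)
  have h3 : ph ψ (a + b) * ph ψ (a - b) ≤ (1 - ψ a - ‖b‖ ^ 2) ^ 2 := by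
    rw [e1, e2]
    have h4 : (1 - ψ (a + b)) * (1 - ψ (a - b)) ≤ ((1 - ψ (a + b) + (1 - ψ (a - b))) / 2) ^ 2 := by
      nlinarith [sq_nonneg (ψ (a + b) - ψ (a - b))]
    refine h4.trans (pow_le_pow_left₀ (by linarith) (by linarith) 2)
  have h4 : 1 - ‖b‖ ^ 2 ≤ Real.exp (-‖b‖ ^ 2) := by
    have := Real.add_one_le_exp (-‖b‖ ^ 2)
    linarith
  have h5 : 1 - ψ a - ‖b‖ ^ 2 ≤ ph ψ a * Real.exp (-‖b‖ ^ 2) := by
    rw [e3]
    have h6 : (1 - ψ a) * (1 - ‖b‖ ^ 2) ≤ (1 - ψ a) * Real.exp (-‖b‖ ^ 2) :=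
      mul_le_mul_of_nonneg_left h4 (by linarith)
    nlinarith
  calc ph ψ (a + b) * ph ψ (a - b) ≤ (1 - ψ a - ‖b‖ ^ 2) ^ 2 := h3
    _ ≤ (ph ψ a * Real.exp (-‖b‖ ^ 2)) ^ 2 := pow_le_pow_left₀ (by linarith) h5 2
    _ = ph ψ a ^ 2 * Real.exp (-(2 * ‖b‖ ^ 2)) := by
        rw [mul_pow, ← Real.exp_nat_mul]
        congr 2
        push_cast
        ring

/-- log-concavity -/
theorem PR.ph_logc (h : PR κ ψ) (p q : V) {t : ℝ} (h0 : 0 < t) (h1 : t < 1) :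
    ph ψ p ^ (1 - t) * ph ψ q ^ t ≤ ph ψ ((1 - t) • p + t • q) := by
  rcases (ph_nonneg (ψ := ψ) p).eq_or_lt with hp | hp
  · rw [← hp, Real.zero_rpow (by linarith), zero_mul]
    exact ph_nonneg _
  rcases (ph_nonneg (ψ := ψ) q).eq_or_lt with hq | hq
  · rw [← hq, Real.zero_rpow (by linarith), mul_zero]
    exact ph_nonneg _
  obtain ⟨e1, l1⟩ := ph_of_pos hp
  obtain ⟨e2, l2⟩ := ph_of_pos hq
  refine (Real.geom_mean_le_arith_mean2_weighted (by linarith) h0.le hp.le hq.le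
    (by ring)).trans ?_
  rw [e1, e2]
  refine le_trans ?_ (le_max_left _ _)
  have h3 := h.conv.2 (mem_univ p) (mem_univ q) (by linarith : 0 ≤ 1 - t) h0.le (by ring)
  simp only [smul_eq_mul] at h3
  linarith

/-- the affinity of two translates -/
theorem PR.ph_aff (h : PR κ ψ) (hκ : 1 ≤ κ) (a b : V) {β : ℝ} (hβ : 1 ≤ β) (ha : 0 < ph ψ a) :
    ph ψ a ^ β * (1 - 66 * κ ^ 2 * β * ‖b‖ ^ 2 / ph ψ a ^ 2) ≤
      Real.sqrt (ph ψ (a + b) ^ β * ph ψ (a - b) ^ β) := by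
  obtain ⟨e, l⟩ := ph_of_pos ha
  have hB := sq_nonneg ‖b‖
  have hA := h.nn a
  have hp2 : 0 < ph ψ a ^ 2 := by positivity
  have hp1 := h.ph_le_one a
  have hpb : 0 < ph ψ a ^ β := Real.rpow_pos_of_pos ha _
  have hκ2 : 1 ≤ κ ^ 2 := one_le_pow₀ hκ
  rcases le_or_gt (66 * κ ^ 2 * ‖b‖ ^ 2) (ph ψ a ^ 2) with hc | hc
  · have hsq1 : ph ψ a ^ 2 ≤ 1 := pow_le_one₀ ha.le hp1
    have hb1 : ‖b‖ ^ 2 ≤ 1 := by nlinarith
    have hb2 : ‖b‖ ≤ 1 := by nlinarith [norm_nonneg b]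
    have ha1 : ‖a‖ ≤ 1 := by
      have := h.ge a
      nlinarith [norm_nonneg a]
    have hs1 := h.sd_upp a b
    have hd1 := h.diff a b
    have hd2 := h.diff a (-b)
    rw [norm_neg, ← sub_eq_add_neg, sub_neg_eq_add] at hd2
    have hbn := norm_nonneg b
    have hle : 8 * κ * ‖b‖ * (‖a‖ + ‖b‖) ≤ 16 * κ * ‖b‖ := by
      have : ‖a‖ + ‖b‖ ≤ 2 := by linarith
      have h8 : 0 ≤ 8 * κ * ‖b‖ := by positivity
      nlinarith
    have hD : (ψ (a + b) - ψ (a - b)) ^ 2 ≤ (16 * κ * ‖b‖) ^ 2 := by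
      refine sq_le_sq' ?_ ?_ <;> linarith
    obtain ⟨av, hav⟩ : ∃ av : ℝ, av = 1 - (ψ (a + b) + ψ (a - b)) / 2 := ⟨_, rfl⟩
    have hav1 : ph ψ a - κ * ‖b‖ ^ 2 ≤ av := by rw [hav, e]; linarith
    have hph2 : ph ψ a ^ 2 ≤ ph ψ a := by nlinarith
    have hkb : κ * ‖b‖ ^ 2 ≤ κ ^ 2 * ‖b‖ ^ 2 := by nlinarith
    have hav0 : 0 ≤ ph ψ a - κ * ‖b‖ ^ 2 := by nlinarith
    have hprod : (1 - ψ (a + b)) * (1 - ψ (a - b)) = av ^ 2 - (ψ (a + b) - ψ (a - b)) ^ 2 / 4 := by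
      rw [hav]; ring
    have h2' : ph ψ a ^ 2 - 66 * κ ^ 2 * ‖b‖ ^ 2 ≤ (1 - ψ (a + b)) * (1 - ψ (a - b)) := by
      rw [hprod]
      have h3 : (ph ψ a - κ * ‖b‖ ^ 2) ^ 2 ≤ av ^ 2 := pow_le_pow_left₀ hav0 hav1 2
      have h4 : ph ψ a ^ 2 - 2 * (κ * ‖b‖ ^ 2) ≤ (ph ψ a - κ * ‖b‖ ^ 2) ^ 2 := by
        have h6 : 0 ≤ κ * ‖b‖ ^ 2 := by positivity
        nlinarith
      have h5 : (16 * κ * ‖b‖) ^ 2 / 4 = 64 * (κ ^ 2 * ‖b‖ ^ 2) := by ring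
      nlinarith
    have h2 : ph ψ a ^ 2 * (1 - 66 * κ ^ 2 * ‖b‖ ^ 2 / ph ψ a ^ 2) ≤
        ph ψ (a + b) * ph ψ (a - b) := by
      have h3 : ph ψ a ^ 2 * (1 - 66 * κ ^ 2 * ‖b‖ ^ 2 / ph ψ a ^ 2) =
          ph ψ a ^ 2 - 66 * κ ^ 2 * ‖b‖ ^ 2 := by
        field_simp
      rw [h3]
      rcases le_or_gt (1 - ψ (a + b)) 0 with h4 | h4
      · have h5 : (1 - ψ (a + b)) * (1 - ψ (a - b)) ≤ 0 := by
          refine mul_nonpos_of_nonpos_of_nonneg h4 ?_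
          linarith
        exact (h2'.trans h5).trans (mul_nonneg (ph_nonneg _) (ph_nonneg _))
      rcases le_or_gt (1 - ψ (a - b)) 0 with h6 | h6
      · have h5 : (1 - ψ (a + b)) * (1 - ψ (a - b)) ≤ 0 := mul_nonpos_of_nonneg_of_nonpos h4.le h6
        exact (h2'.trans h5).trans (mul_nonneg (ph_nonneg _) (ph_nonneg _))
      · have ep : ph ψ (a + b) = 1 - ψ (a + b) := max_eq_left h4.le
        have em : ph ψ (a - b) = 1 - ψ (a - b) := max_eq_left h6.le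
        rw [ep, em]
        exact h2'
    have hx0 : 0 ≤ 1 - 66 * κ ^ 2 * ‖b‖ ^ 2 / ph ψ a ^ 2 := by
      rw [sub_nonneg, div_le_one hp2]
      exact hc
    have h4 : 1 - 66 * κ ^ 2 * β * ‖b‖ ^ 2 / ph ψ a ^ 2 ≤
        (1 - 66 * κ ^ 2 * ‖b‖ ^ 2 / ph ψ a ^ 2) ^ (β / 2) := by
      obtain ⟨x, hx⟩ : ∃ x : ℝ, x = 66 * κ ^ 2 * ‖b‖ ^ 2 / ph ψ a ^ 2 := ⟨_, rfl⟩
      have hxx : 0 ≤ x := by rw [hx]; positivity
      have h6 : 66 * κ ^ 2 * β * ‖b‖ ^ 2 / ph ψ a ^ 2 = β * x := by rw [hx]; ring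
      rw [h6, ← hx]
      rw [← hx] at hx0
      rcases le_total 1 (β / 2) with h8 | h8
      · have h5 := one_add_mul_self_le_rpow_one_add (s := -x) (by linarith) (p := β / 2) h8
        have h9 : 0 ≤ β / 2 * x := by positivity
        have h10 : 1 + β / 2 * -x = 1 - β * x + β / 2 * x := by ring
        rw [← sub_eq_add_neg] at h5
        linarith
      · have h5 := Real.rpow_le_rpow_of_exponent_ge' hx0 (by linarith : 1 - x ≤ 1)
          (by linarith : 0 ≤ β / 2) h8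
        rw [Real.rpow_one] at h5
        nlinarith
    have h7 : Real.sqrt (ph ψ (a + b) ^ β * ph ψ (a - b) ^ β) =
        (ph ψ (a + b) * ph ψ (a - b)) ^ (β / 2) := by
      rw [← Real.mul_rpow (ph_nonneg _) (ph_nonneg _), Real.sqrt_eq_rpow, ← Real.rpow_mul
        (mul_nonneg (ph_nonneg _) (ph_nonneg _))]
      congr 1
      ring
    rw [h7]
    calc ph ψ a ^ β * (1 - 66 * κ ^ 2 * β * ‖b‖ ^ 2 / ph ψ a ^ 2)
        ≤ ph ψ a ^ β * (1 - 66 * κ ^ 2 * ‖b‖ ^ 2 / ph ψ a ^ 2) ^ (β / 2) :=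
          mul_le_mul_of_nonneg_left h4 hpb.le
      _ = (ph ψ a ^ 2 * (1 - 66 * κ ^ 2 * ‖b‖ ^ 2 / ph ψ a ^ 2)) ^ (β / 2) := by
          have e5 : (ph ψ a ^ 2) ^ (β / 2) = ph ψ a ^ β := by
            rw [← Real.rpow_natCast, ← Real.rpow_mul ha.le]
            congr 1
            push_cast
            ring
          rw [Real.mul_rpow hp2.le hx0, e5]
      _ ≤ _ := Real.rpow_le_rpow (mul_nonneg hp2.le hx0) h2 (by linarith)
  · refine le_trans (mul_nonpos_of_nonneg_of_nonpos hpb.le ?_) (Real.sqrt_nonneg _)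
    have h1 : 1 ≤ 66 * κ ^ 2 * β * ‖b‖ ^ 2 / ph ψ a ^ 2 := by
      rw [le_div_iff₀ hp2]
      have h3 : 0 ≤ κ ^ 2 * ‖b‖ ^ 2 := by positivity
      nlinarith
    linarith

end one

/-- `∏ (1 - c_i)₊ ≥ 1 - ∑ c_i` -/
theorem weier {ι : Type} (s : Finset ι) (c : ι → ℝ) (hc : ∀ i, 0 ≤ c i) :
    1 - ∑ i ∈ s, c i ≤ ∏ i ∈ s, max (1 - c i) 0 := by
  classical
  induction s using Finset.induction_on with
  | empty => simp
  | insert a s ha ih =>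
    rw [Finset.sum_insert ha, Finset.prod_insert ha]
    have h0 : 0 ≤ ∏ i ∈ s, max (1 - c i) 0 := Finset.prod_nonneg fun _ _ => le_max_right _ _
    have h1 : ∏ i ∈ s, max (1 - c i) 0 ≤ 1 := Finset.prod_le_one (fun _ _ => le_max_right _ _)
      fun i _ => max_le (by linarith [hc i]) zero_le_one
    have h2 := hc a
    have h3 := Finset.sum_nonneg fun i (_ : i ∈ s) => hc i
    have h4 : (1 - c a) * ∏ i ∈ s, max (1 - c i) 0 ≤ max (1 - c a) 0 * ∏ i ∈ s, max (1 - c i) 0 :=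
      mul_le_mul_of_nonneg_right (le_max_left _ _) h0
    nlinarith

/-! ### the weight -/

variable {N : ℕ} {V : Type} [NormedAddCommGroup V] [InnerProductSpace ℝ V]
  {W : Fin N → Type} [∀ i, NormedAddCommGroup (W i)] [∀ i, InnerProductSpace ℝ (W i)]

/-- `∏ (1 - ψ_i(Q_i t))₊ ^ β_i` -/
noncomputable def wt (ψ : ∀ i, W i → ℝ) (Q : ∀ i, V →ₗ[ℝ] W i) (β : Fin N → ℝ) (t : V) : ℝ :=
  ∏ i, ph (ψ i) (Q i t) ^ β i

variable {κ : ℝ} {ψ : ∀ i, W i → ℝ} {Q : ∀ i, V →ₗ[ℝ] W i} {β : Fin N → ℝ}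

theorem wt_nonneg (t : V) : 0 ≤ wt ψ Q β t :=
  Finset.prod_nonneg fun i _ => Real.rpow_nonneg (ph_nonneg _) _

theorem wt_le_one (hψ : ∀ i, PR κ (ψ i)) (hβ : ∀ i, 0 ≤ β i) (t : V) : wt ψ Q β t ≤ 1 :=
  Finset.prod_le_one (fun i _ => Real.rpow_nonneg (ph_nonneg _) _)
    fun i _ => Real.rpow_le_one (ph_nonneg _) ((hψ i).ph_le_one _) (hβ i)

theorem wt_neg (hψ : ∀ i, PR κ (ψ i)) (t : V) : wt ψ Q β (-t) = wt ψ Q β t := by
  unfold wt
  refine Finset.prod_congr rfl fun i _ => ?_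
  rw [map_neg, (hψ i).ph_neg]

theorem wt_cont [FiniteDimensional ℝ V] [∀ i, FiniteDimensional ℝ (W i)] (hψ : ∀ i, PR κ (ψ i))
    (hβ : ∀ i, 0 ≤ β i) : Continuous (wt ψ Q β) := by
  unfold wt
  refine continuous_finsetProd _ fun i _ => ?_
  exact ((hψ i).ph_cont.comp (Q i).continuous_of_finiteDimensional).rpow_const
    fun _ => Or.inr (hβ i)

theorem wt_zero (hψ : ∀ i, PR κ (ψ i)) : wt ψ Q β 0 = 1 := by
  unfold wt
  refine Finset.prod_eq_one fun i _ => ?_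
  rw [map_zero, (hψ i).ph_zero, Real.one_rpow]

theorem wt_logc (hψ : ∀ i, PR κ (ψ i)) (hβ : ∀ i, 0 ≤ β i) (x y : V) {t : ℝ} (h0 : 0 < t)
    (h1 : t < 1) : wt ψ Q β x ^ (1 - t) * wt ψ Q β y ^ t ≤ wt ψ Q β ((1 - t) • x + t • y) := by
  unfold wt
  rw [← Real.finsetProd_rpow _ _ fun i _ => Real.rpow_nonneg (ph_nonneg _) _,
    ← Real.finsetProd_rpow _ _ fun i _ => Real.rpow_nonneg (ph_nonneg _) _,
    ← Finset.prod_mul_distrib]
  refine Finset.prod_le_prod (fun i _ => mul_nonneg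
    (Real.rpow_nonneg (Real.rpow_nonneg (ph_nonneg _) _) _)
    (Real.rpow_nonneg (Real.rpow_nonneg (ph_nonneg _) _) _)) fun i _ => ?_
  rw [← Real.rpow_mul (ph_nonneg _), ← Real.rpow_mul (ph_nonneg _), mul_comm (β i),
    mul_comm (β i), Real.rpow_mul (ph_nonneg _), Real.rpow_mul (ph_nonneg _),
    ← Real.mul_rpow (Real.rpow_nonneg (ph_nonneg _) _) (Real.rpow_nonneg (ph_nonneg _) _)]
  refine Real.rpow_le_rpow (mul_nonneg (Real.rpow_nonneg (ph_nonneg _) _)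
    (Real.rpow_nonneg (ph_nonneg _) _)) ?_ (hβ i)
  rw [map_add, map_smul, map_smul]
  exact (hψ i).ph_logc _ _ h0 h1

/-- strong log-concavity -/
theorem wt_strong (hψ : ∀ i, PR κ (ψ i)) (hβ : ∀ i, 0 ≤ β i) (x y : V) :
    wt ψ Q β x * wt ψ Q β y ≤
    wt ψ Q β ((1 / 2 : ℝ) • (x + y)) ^ 2 * Real.exp (-((∑ i, β i * ‖Q i (x - y)‖ ^ 2) / 2)) := by
  obtain ⟨a, ha⟩ : ∃ a : V, a = (1 / 2 : ℝ) • (x + y) := ⟨_, rfl⟩
  obtain ⟨b, hb⟩ : ∃ b : V, b = (1 / 2 : ℝ) • (x - y) := ⟨_, rfl⟩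
  have hx : x = a + b := by rw [ha, hb]; module
  have hy : y = a - b := by rw [ha, hb]; module
  have hxy : x - y = (2 : ℝ) • b := by rw [hb]; module
  rw [← ha, hxy]
  have h1 : ∀ i, ‖Q i ((2 : ℝ) • b)‖ ^ 2 = 4 * ‖Q i b‖ ^ 2 := by
    intro i
    rw [map_smul, norm_smul, Real.norm_of_nonneg (by norm_num : (0 : ℝ) ≤ 2), mul_pow]
    norm_num
  have h2 : Real.exp (-((∑ i, β i * ‖Q i ((2 : ℝ) • b)‖ ^ 2) / 2)) =
      ∏ i, Real.exp (-(2 * ‖Q i b‖ ^ 2)) ^ β i := by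
    have h3 : ∀ i, Real.exp (-(2 * ‖Q i b‖ ^ 2)) ^ β i = Real.exp (-(2 * β i * ‖Q i b‖ ^ 2)) := by
      intro i
      rw [← Real.exp_mul]
      congr 1
      ring
    simp only [h3, h1]
    rw [← Real.exp_sum]
    congr 1
    rw [Finset.sum_neg_distrib, Finset.sum_div]
    congr 1
    refine Finset.sum_congr rfl fun i _ => ?_
    ring
  rw [h2]
  unfold wt
  rw [← Finset.prod_mul_distrib, ← Finset.prod_pow, ← Finset.prod_mul_distrib]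
  refine Finset.prod_le_prod (fun i _ => mul_nonneg (Real.rpow_nonneg (ph_nonneg _) _)
    (Real.rpow_nonneg (ph_nonneg _) _)) fun i _ => ?_
  rw [← Real.mul_rpow (ph_nonneg _) (ph_nonneg _), hx, hy, map_add, map_sub]
  calc (ph (ψ i) (Q i a + Q i b) * ph (ψ i) (Q i a - Q i b)) ^ β i
      ≤ (ph (ψ i) (Q i a) ^ 2 * Real.exp (-(2 * ‖Q i b‖ ^ 2))) ^ β i :=
        Real.rpow_le_rpow (mul_nonneg (ph_nonneg _) (ph_nonneg _)) ((hψ i).ph_strong _ _) (hβ i)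
    _ = (ph (ψ i) (Q i a) ^ β i) ^ 2 * Real.exp (-(2 * ‖Q i b‖ ^ 2)) ^ β i := by
        rw [Real.mul_rpow (by positivity) (Real.exp_pos _).le]
        congr 1
        rw [← Real.rpow_natCast, ← Real.rpow_natCast, ← Real.rpow_mul (ph_nonneg _),
          ← Real.rpow_mul (ph_nonneg _), mul_comm]

/-- the weight divided by `(1 - ψ_i(Q_i t))²` -/
noncomputable def wd (ψ : ∀ i, W i → ℝ) (Q : ∀ i, V →ₗ[ℝ] W i) (β : Fin N → ℝ) (i : Fin N)
    (t : V) : ℝ := wt ψ Q β t / ph (ψ i) (Q i t) ^ 2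

theorem wd_nonneg (i : Fin N) (t : V) : 0 ≤ wd ψ Q β i t :=
  div_nonneg (wt_nonneg _) (sq_nonneg _)

/-- one factor of the weight -/
theorem wt_upd (i : Fin N) (γ : ℝ) (t : V) : wt ψ Q (Function.update β i γ) t =
    ph (ψ i) (Q i t) ^ γ * wt ψ Q (Function.update β i 0) t := by
  classical
  unfold wt
  rw [← Finset.mul_prod_erase _ _ (Finset.mem_univ i),
    ← Finset.mul_prod_erase (Finset.univ : Finset (Fin N))
      (fun j => ph (ψ j) (Q j t) ^ Function.update β i 0 j) (Finset.mem_univ i), ← mul_assoc]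
  congr 1
  · rw [Function.update_self, Function.update_self, Real.rpow_zero, mul_one]
  · refine Finset.prod_congr rfl fun j hj => ?_
    rw [Function.update_of_ne (Finset.ne_of_mem_erase hj),
      Function.update_of_ne (Finset.ne_of_mem_erase hj)]

theorem wt_fac (i : Fin N) (t : V) : wt ψ Q β t =
    ph (ψ i) (Q i t) ^ β i * wt ψ Q (Function.update β i 0) t := by
  have h := wt_upd (ψ := ψ) (Q := Q) (β := β) i (β i) t
  rwa [Function.update_eq_self] at h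

/-- the affinity of two translates, pointwise -/
theorem wt_aff (hψ : ∀ i, PR κ (ψ i)) (hκ : 1 ≤ κ) (hβ : ∀ i, 1 ≤ β i) (t u : V) :
    wt ψ Q β t - ∑ i, 66 * κ ^ 2 * β i * ‖Q i u‖ ^ 2 * wd ψ Q β i t ≤
      Real.sqrt (wt ψ Q β (t + u) * wt ψ Q β (t - u)) := by
  have hb0 : ∀ i, 0 < β i := fun i => by linarith [hβ i]
  have hS : 0 ≤ ∑ i, 66 * κ ^ 2 * β i * ‖Q i u‖ ^ 2 * wd ψ Q β i t :=
    Finset.sum_nonneg fun i _ => mul_nonneg (by have := hb0 i; positivity) (wd_nonneg _ _)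
  by_cases h : ∀ i, 0 < ph (ψ i) (Q i t)
  · have h2 : wt ψ Q β t - ∑ i, 66 * κ ^ 2 * β i * ‖Q i u‖ ^ 2 * wd ψ Q β i t =
        wt ψ Q β t * (1 - ∑ i, 66 * κ ^ 2 * β i * ‖Q i u‖ ^ 2 / ph (ψ i) (Q i t) ^ 2) := by
      rw [mul_sub, mul_one, Finset.mul_sum]
      congr 1
      refine Finset.sum_congr rfl fun i _ => ?_
      unfold wd
      ring
    rw [h2]
    have h3 := weier Finset.univ
      (fun i => 66 * κ ^ 2 * β i * ‖Q i u‖ ^ 2 / ph (ψ i) (Q i t) ^ 2)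
      fun i => by have := hb0 i; positivity
    refine (mul_le_mul_of_nonneg_left h3 (wt_nonneg _)).trans ?_
    unfold wt
    rw [← Finset.prod_mul_distrib, ← Finset.prod_mul_distrib, Real.sqrt_prod _ fun i _ =>
      mul_nonneg (Real.rpow_nonneg (ph_nonneg _) _) (Real.rpow_nonneg (ph_nonneg _) _)]
    refine Finset.prod_le_prod (fun i _ => mul_nonneg (Real.rpow_nonneg (ph_nonneg _) _)
      (le_max_right _ _)) fun i _ => ?_
    rw [map_add, map_sub]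
    rcases le_total (1 - 66 * κ ^ 2 * β i * ‖Q i u‖ ^ 2 / ph (ψ i) (Q i t) ^ 2) 0 with h4 | h4
    · rw [max_eq_right h4, mul_zero]
      exact Real.sqrt_nonneg _
    · rw [max_eq_left h4]
      exact (hψ i).ph_aff hκ _ _ (hβ i) (h i)
  · push Not at h
    obtain ⟨i, hi⟩ := h
    have h1 : ph (ψ i) (Q i t) = 0 := le_antisymm hi (ph_nonneg _)
    have h2 : wt ψ Q β t = 0 := by
      unfold wt
      refine Finset.prod_eq_zero (Finset.mem_univ i) ?_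
      rw [h1, Real.zero_rpow (hb0 i).ne']
    rw [h2]
    linarith [Real.sqrt_nonneg (wt ψ Q β (t + u) * wt ψ Q β (t - u))]

end Pool.Agent.W5h33.KQ
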