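import Pool.Agent.W5h33.KQ.Qa
import Pool.Agent.H888R2.KT.N9
import Pool.Agent.Y506.KS.Gp
import Pool.Agent.R754.KG.A

/-!
# Products of powers of `1 - ψ_i (Q_i t)`: the Poincaré inequality
-/

set_option autoImplicit false
set_option linter.unusedSectionVars false

namespace Pool.Agent.W5h33.KQ

open MeasureTheory Set Filter Topology
open scoped ENNReal InnerProductSpace
open Pool.Agent.R754.KG (E)
open Pool.Agent.H888R2.KT (LC St iter hs)
open Pool.Agent.H212R2.KLS (mu)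

variable {N m : ℕ} {b : Fin N → ℕ} {Q : ∀ i, E m →ₗ[ℝ] E (b i)} {β : Fin N → ℝ}
  {κ : ℝ} {ψ : ∀ i, E (b i) → ℝ}

/-- coordinates in which the quadratic form `∑ β_i ‖Q_i x‖²` is the norm -/
theorem exT (Q : ∀ i, E m →ₗ[ℝ] E (b i)) (β : Fin N → ℝ) (hβ : ∀ i, 0 < β i)
    (hk : ∀ x, (∀ i, Q i x = 0) → x = 0) :
    ∃ T : E m ≃L[ℝ] E m, ∀ x, ‖T x‖ ^ 2 = ∑ i, β i * ‖Q i x‖ ^ 2 := by
  let Q' : E m →ₗ[ℝ] PiLp 2 (fun i => E (b i)) :=
    { toFun := fun x => WithLp.toLp 2 fun i => Real.sqrt (β i) • Q i x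
      map_add' := fun x y => by
        apply (WithLp.equiv 2 _).injective
        funext i
        simp
      map_smul' := fun c x => by
        apply (WithLp.equiv 2 _).injective
        funext i
        show Real.sqrt (β i) • Q i (c • x) = c • (Real.sqrt (β i) • Q i x)
        rw [map_smul, smul_comm] }
  have hQ' : ∀ x, ‖Q' x‖ ^ 2 = ∑ i, β i * ‖Q i x‖ ^ 2 := by
    intro x
    rw [PiLp.norm_sq_eq_of_L2]
    refine Finset.sum_congr rfl fun i _ => ?_
    show ‖Real.sqrt (β i) • Q i x‖ ^ 2 = _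
    rw [norm_smul, mul_pow, Real.norm_of_nonneg (Real.sqrt_nonneg _), Real.sq_sqrt (hβ i).le]
  have hinj : Function.Injective Q' := by
    rw [injective_iff_map_eq_zero]
    intro x hx
    refine hk x fun i => ?_
    have h1 := hQ' x
    rw [hx, norm_zero] at h1
    have h2 := (Finset.sum_eq_zero_iff_of_nonneg fun i _ => by
      have := hβ i
      positivity).1 (h1.symm.trans (by norm_num)) i (Finset.mem_univ i)
    rcases mul_eq_zero.1 h2 with h3 | h3
    · exact absurd h3 (hβ i).ne'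
    · exact norm_eq_zero.1 (pow_eq_zero_iff (by norm_num) |>.1 h3)
  obtain ⟨T, hT⟩ := Pool.Agent.Y506.KS.exists_T Q' hinj
  exact ⟨T, fun x => by rw [hT, hQ']⟩

/-- the support of the weight -/
theorem wt_supp (hψ : ∀ i, PR κ (ψ i)) (hβ : ∀ i, 0 < β i) {x : E m} (h : wt ψ Q β x ≠ 0) :
    ∑ i, β i * ‖Q i x‖ ^ 2 ≤ ∑ i, β i := by
  refine Finset.sum_le_sum fun i _ => ?_
  have h1 : ph (ψ i) (Q i x) ^ β i ≠ 0 := fun h0 => h (Finset.prod_eq_zero (Finset.mem_univ i) h0)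
  have h2 : 0 < ph (ψ i) (Q i x) := by
    rcases (ph_nonneg (ψ := ψ i) (Q i x)).eq_or_lt with h3 | h3
    · rw [← h3, Real.zero_rpow (hβ i).ne'] at h1
      exact absurd rfl h1
    · exact h3
  have h3 := (ph_of_pos h2).2
  have h4 := (hψ i).ge (Q i x)
  have := hβ i
  nlinarith

theorem mu_int {ρ : E m → ℝ} (hm : Measurable ρ) (h0 : ∀ x, 0 ≤ ρ x) (g : E m → ℝ) :
    ∫ x, g x ∂(mu ρ) = ∫ x, g x * ρ x := by
  unfold mu
  rw [integral_withDensity_eq_integral_toReal_smul hm.ennreal_ofReal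
    (Eventually.of_forall fun x => ENNReal.ofReal_lt_top)]
  refine integral_congr_ae (Eventually.of_forall fun x => ?_)
  simp only [ENNReal.toReal_ofReal (h0 x), smul_eq_mul]
  ring

/-- the weight in the new coordinates -/
theorem lc_wt (hψ : ∀ i, PR κ (ψ i)) (hβ : ∀ i, 0 < β i) (T : E m ≃L[ℝ] E m)
    (hT : ∀ x, ‖T x‖ ^ 2 = ∑ i, β i * ‖Q i x‖ ^ 2) : LC fun y => wt ψ Q β (T.symm y) := by
  have hβ0 : ∀ i, 0 ≤ β i := fun i => (hβ i).le
  have hc : Continuous fun y => wt ψ Q β (T.symm y) := (wt_cont hψ hβ0).comp T.symm.continuous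
  obtain ⟨R, hR⟩ : ∃ R, R = Real.sqrt (∑ i, β i) := ⟨_, rfl⟩
  have hS0 : 0 ≤ ∑ i, β i := Finset.sum_nonneg fun i _ => hβ0 i
  have hR0 : 0 ≤ R := by rw [hR]; exact Real.sqrt_nonneg _
  have hbd : ∀ y, R < ‖y‖ → wt ψ Q β (T.symm y) = 0 := by
    intro y hy
    by_contra h
    have h1 := wt_supp hψ hβ h
    rw [← hT, T.apply_symm_apply] at h1
    have h2 : R ^ 2 < ‖y‖ ^ 2 := pow_lt_pow_left₀ hy hR0 two_ne_zero
    rw [hR, Real.sq_sqrt hS0] at h2
    linarith
  refine ⟨fun y => wt_nonneg _, hc.measurable, fun x y t h0 h1 => ?_, ⟨R, hbd⟩, ?_, ?_⟩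
  · rw [map_add, map_smul, map_smul]
    exact wt_logc hψ hβ0 _ _ h0 h1
  · unfold mu
    rw [withDensity_apply _ MeasurableSet.univ, Measure.restrict_univ]
    have h1 : ∫⁻ y, ENNReal.ofReal (wt ψ Q β (T.symm y)) ≤
        ∫⁻ y, (Metric.closedBall (0 : E m) R).indicator (fun _ => (1 : ℝ≥0∞)) y := by
      refine lintegral_mono fun y => ?_
      by_cases hy : y ∈ Metric.closedBall (0 : E m) R
      · rw [indicator_of_mem hy, ← ENNReal.ofReal_one]
        exact ENNReal.ofReal_le_ofReal (wt_le_one hψ hβ0 _)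
      · rw [indicator_of_notMem hy]
        rw [mem_closedBall_zero_iff, not_le] at hy
        simp only [hbd y hy, ENNReal.ofReal_zero, le_refl]
    rw [lintegral_indicator_const measurableSet_closedBall, one_mul] at h1
    exact (lt_of_le_of_lt h1 measure_closedBall_lt_top).ne
  · intro h0
    unfold mu at h0
    rw [withDensity_eq_zero_iff hc.measurable.ennreal_ofReal.aemeasurable] at h0
    have h1 := (Continuous.ae_eq_iff_eq volume (ENNReal.continuous_ofReal.comp hc)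
      (continuous_const (y := (0 : ℝ≥0∞)))).1 h0
    have h2 := congrFun h1 0
    simp only [Function.comp_apply, map_zero, wt_zero hψ, ENNReal.ofReal_one] at h2
    exact one_ne_zero h2

/-- the Poincaré inequality -/
theorem poin (hψ : ∀ i, PR κ (ψ i)) (hβ : ∀ i, 0 < β i) (T : E m ≃L[ℝ] E m)
    (hT : ∀ x, ‖T x‖ ^ 2 = ∑ i, β i * ‖Q i x‖ ^ 2) (f : E m → ℝ) (hf : ContDiff ℝ 1 f) :
    ∃ c : ℝ, ∫ x, (f (T x) - c) ^ 2 * wt ψ Q β x ≤ 2 * ∫ x, ‖fderiv ℝ f (T x)‖ ^ 2 * wt ψ Q β x := by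
  classical
  have hβ0 : ∀ i, 0 ≤ β i := fun i => (hβ i).le
  have hLC := lc_wt hψ hβ T hT
  obtain ⟨e, he⟩ : ∃ e : Fin m → E m, e = fun j => EuclideanSpace.single j (1 : ℝ) := ⟨_, rfl⟩
  have hort : Orthonormal ℝ e := by rw [he]; exact EuclideanSpace.orthonormal_single
  have hinn : ∀ v : E m, ∑ j, ⟪e j, v⟫_ℝ ^ 2 = ‖v‖ ^ 2 := by
    intro v
    rw [EuclideanSpace.norm_sq_eq, he]
    refine Finset.sum_congr rfl fun j _ => ?_
    simp only
    rw [EuclideanSpace.inner_single_left, Real.norm_eq_abs, sq_abs]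
    simp
  have hSt : St e (1 / 2) fun y => wt ψ Q β (T.symm y) := by
    intro x y
    have h1 := wt_strong (Q := Q) hψ hβ0 (T.symm x) (T.symm y)
    rw [← map_sub, ← hT, T.apply_symm_apply, ← map_add, ← map_smul] at h1
    rw [hinn]
    refine h1.trans (le_of_eq ?_)
    congr 2
    ring
  obtain ⟨c, hc⟩ := iter hLC e hort (1 / 2) (by norm_num) hSt (1 / 2) le_rfl univ
    (fun _ _ _ => mem_univ _) (fun v _ hv x _ => by
      have h1 : ∑ j, (fderiv ℝ v x (e j)) ^ 2 = ‖fderiv ℝ v x‖ ^ 2 := by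
        rw [Pool.Agent.H888R2.KT.N8x.norm_sq_clm, he]
      rw [h1, sub_self]
      have h2 : 0 ≤ hs v x := by
        unfold hs
        exact Finset.sum_nonneg fun i _ => sq_nonneg _
      linarith) f (mem_univ _) hf
  refine ⟨c, ?_⟩
  rw [mu_int hLC.meas hLC.nonneg, mu_int hLC.meas hLC.nonneg] at hc
  obtain ⟨a, ha, h1, -⟩ := Pool.Agent.Y506.KS.cov1 T
  have h2 := h1 fun y => (f y - c) ^ 2 * wt ψ Q β (T.symm y)
  have h3 := h1 fun y => ‖fderiv ℝ f y‖ ^ 2 * wt ψ Q β (T.symm y)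
  simp only [T.symm_apply_apply] at h2 h3
  rw [h2, h3]
  have h4 := mul_le_mul_of_nonneg_left hc ha.le
  linarith

end Pool.Agent.W5h33.KQ
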