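import Pool.Agent.W5h33.KQ.Gf
import Pool.Agent.W5h33.KQ.Km
import Pool.Agent.W5h33.KL.Hom
import Pool.Agent.W5h33.KL.Cl

/-!
# Bodies fibred over arbitrarily many uniformly convex and smooth constraints
-/

set_option autoImplicit false
set_option linter.unusedSectionVars false

namespace Pool.Agent.W5h33.KQ

open MeasureTheory Set Filter Topology ProbabilityTheory
open scoped ENNReal InnerProductSpace Pointwise
open Pool.Agent.R754.KG (E un sl Rv un_prob un_int)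
open Pool.Agent.R755.KF (CB sl_comp sl_conv int_of_vol)
open Pool.Agent.R755.KS (KM bl int_cont bl_prob bl_bdd QC Ct km_mono cb_pre)
open Pool.Agent.R755.KS.KS9aux
open Pool.Agent.R755.KS.KS6aux (mf dis ae_pos mf_int mf_meas)
open Pool.Agent.R751.MB (AP)
open Pool.Agent.Y506.RG (EW VW Adm)
open Pool.Agent.W5h33.KL (lin_zero lf lf_sum zero_mem smul_sub ap_smul mom_smul bl_int ew_smul
  gi_cont ap_km)

variable {m : ℕ}

/-- `{x | ψ(Q t) ≤ 1, x ∈ (1 - ψ(Q t))^α B}` -/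
def qf {b n : ℕ} (ψ : E b → ℝ) (Q : E m →ₗ[ℝ] E b) (α : ℝ) (B : Set (E n)) (t : E m) :
    Set (E n) := {x | ψ (Q t) ≤ 1 ∧ x ∈ (ph ψ (Q t) ^ α) • B}

variable {b n : ℕ} {κ : ℝ} {ψ : E b → ℝ} {Q : E m →ₗ[ℝ] E b} {α : ℝ} {B : Set (E n)}

theorem qf_mem {t : E m} (h : ψ (Q t) ≤ 1) : qf ψ Q α B t = (ph ψ (Q t) ^ α) • B := by
  ext x
  exact ⟨fun hx => hx.2, fun hx => ⟨h, hx⟩⟩

theorem qf_empty {t : E m} (h : ¬ ψ (Q t) ≤ 1) : qf ψ Q α B t = ∅ := by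
  rw [← not_nonempty_iff_eq_empty]
  exact fun ⟨x, hx⟩ => h hx.1

theorem ph_of_le {s : E b} (h : ψ s ≤ 1) : ph ψ s = 1 - ψ s := max_eq_left (by linarith)

theorem ph_of_gt {s : E b} (h : ¬ ψ s ≤ 1) : ph ψ s = 0 := max_eq_right (by push Not at h; linarith)

/-- the radius is concave -/
theorem r_conc (h : PR κ ψ) (hα : 0 < α) (hα1 : α ≤ 1) {p q : E b} (hp : ψ p ≤ 1) (hq : ψ q ≤ 1)
    {c d : ℝ} (hc : 0 ≤ c) (hd : 0 ≤ d) (hcd : c + d = 1) :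
    c * ph ψ p ^ α + d * ph ψ q ^ α ≤ ph ψ (c • p + d • q) ^ α := by
  have h1 := (Real.concaveOn_rpow hα.le hα1).2 (mem_Ici.2 (ph_nonneg (ψ := ψ) p))
    (mem_Ici.2 (ph_nonneg (ψ := ψ) q)) hc hd hcd
  simp only [smul_eq_mul] at h1
  refine h1.trans (Real.rpow_le_rpow (add_nonneg (mul_nonneg hc (ph_nonneg p))
    (mul_nonneg hd (ph_nonneg q))) ?_ hα.le)
  rw [ph_of_le hp, ph_of_le hq]
  refine le_trans ?_ (le_max_left _ _)
  have h3 := h.conv.2 (mem_univ p) (mem_univ q) hc hd hcd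
  simp only [smul_eq_mul] at h3
  have hd' : d = 1 - c := by linarith
  rw [hd'] at h3 ⊢
  linarith

theorem psi_comb (h : PR κ ψ) {p q : E b} (hp : ψ p ≤ 1) (hq : ψ q ≤ 1)
    {c d : ℝ} (hc : 0 ≤ c) (hd : 0 ≤ d) (hcd : c + d = 1) : ψ (c • p + d • q) ≤ 1 := by
  have h3 := h.conv.2 (mem_univ p) (mem_univ q) hc hd hcd
  simp only [smul_eq_mul] at h3
  nlinarith

theorem qf_gf {A : ℝ} (h : PR κ ψ) (hα : 0 < α) (hα1 : α ≤ 1) (hc : IsCompact B)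
    (hcv : Convex ℝ B) (hi : (interior B).Nonempty) (hs : ∀ x ∈ B, -x ∈ B)
    (hp : AP A (Pool.Agent.R751.MB.ind B)) : GF A (qf ψ Q α B) := by
  have hBn : B.Nonempty := hi.mono interior_subset
  have h0 := zero_mem hcv hBn hs
  refine ⟨fun t => ?_, fun t t' c d hc0 hd0 hcd x hx y hy => ?_, fun t x hx => ?_, fun t hv => ?_⟩
  · by_cases h : ψ (Q t) ≤ 1
    · rw [qf_mem h]
      exact hc.smul _
    · rw [qf_empty h]
      exact isCompact_empty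
  · obtain ⟨hx1, hx2⟩ := hx
    obtain ⟨hy1, hy2⟩ := hy
    have e : Q (c • t + d • t') = c • Q t + d • Q t' := by rw [map_add, map_smul, map_smul]
    have r1 : 0 ≤ ph ψ (Q t) ^ α := Real.rpow_nonneg (ph_nonneg _) _
    have r2 : 0 ≤ ph ψ (Q t') ^ α := Real.rpow_nonneg (ph_nonneg _) _
    refine ⟨by rw [e]; exact psi_comb h hx1 hy1 hc0 hd0 hcd, ?_⟩
    rw [e]
    have h5 := r_conc h hα hα1 hx1 hy1 hc0 hd0 hcd
    have h6 : c • x + d • y ∈ (c * ph ψ (Q t) ^ α + d * ph ψ (Q t') ^ α) • B := by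
      rw [hcv.add_smul (mul_nonneg hc0 r1) (mul_nonneg hd0 r2)]
      refine ⟨c • x, ?_, d • y, ?_, rfl⟩
      · obtain ⟨x', hx', hxe⟩ := hx2
        exact ⟨x', hx', by rw [← hxe]; simp only [smul_smul]⟩
      · obtain ⟨x', hx', hxe⟩ := hy2
        exact ⟨x', hx', by rw [← hxe]; simp only [smul_smul]⟩
    exact smul_sub hcv h0 (add_nonneg (mul_nonneg hc0 r1) (mul_nonneg hd0 r2)) h5 h6
  · obtain ⟨hx1, x', hx', hxe⟩ := hx
    refine ⟨hx1, -x', hs x' hx', ?_⟩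
    show (ph ψ (Q t) ^ α) • -x' = -x
    rw [smul_neg, ← hxe]
  · have h : ψ (Q t) ≤ 1 := (nonempty_of_measure_ne_zero hv).some_mem.1
    rw [qf_mem h] at hv ⊢
    exact ap_smul hBn hv hp

/-- the volumes -/
theorem qf_vol (hα : 0 < α * n) (t : E m) :
    (volume (qf ψ Q α B t)).toReal = ph ψ (Q t) ^ (α * n) * (volume B).toReal := by
  by_cases h : ψ (Q t) ≤ 1
  · rw [qf_mem h, Measure.addHaar_smul, finrank_euclideanSpace_fin, ENNReal.toReal_mul,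
      ENNReal.toReal_ofReal (abs_nonneg _), abs_of_nonneg (pow_nonneg
        (Real.rpow_nonneg (ph_nonneg _) _) _), ← Real.rpow_natCast, ← Real.rpow_mul (ph_nonneg _)]
  · rw [qf_empty h, ph_of_gt h, Real.zero_rpow hα.ne', measure_empty, ENNReal.toReal_zero, zero_mul]

/-- the volumes if `Q = 0` -/
theorem qf_vol0 (h : PR κ ψ) (hQ : Q = 0) (β : ℝ) (t : E m) :
    (volume (qf ψ Q α B t)).toReal = ph ψ (Q t) ^ β * (volume B).toReal := by
  have h1 : Q t = 0 := by rw [hQ]; rfl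
  have h2 : ψ (Q t) ≤ 1 := by rw [h1, h.zero]; exact zero_le_one
  rw [qf_mem h2, h1, h.ph_zero, Real.one_rpow, Real.one_rpow, one_smul, one_mul]

/-- second moments -/
theorem qf_mom {t : E m} (hv : volume (qf ψ Q α B t) ≠ 0) (L : E n →ₗ[ℝ] ℝ) :
    ∫ x, L x ^ 2 ∂(un (qf ψ Q α B t)) = (ph ψ (Q t) ^ α) ^ 2 * ∫ x, L x ^ 2 ∂(un B) := by
  have h : ψ (Q t) ≤ 1 := (nonempty_of_measure_ne_zero hv).some_mem.1
  rw [qf_mem h] at hv ⊢
  exact mom_smul hv L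

/-! ### the body -/

section body

variable {N D : ℕ} {k b : Fin N → ℕ} {A Γ : ℝ} {ψ : ∀ i, E (b i) → ℝ}
  {Q : ∀ i, E m →ₗ[ℝ] E (b i)} {α : Fin N → ℝ} {B : ∀ i, Set (E (k i))}

/-- the conditions -/
structure QD (A κ Γ : ℝ) (ψ : ∀ i, E (b i) → ℝ) (Q : ∀ i, E m →ₗ[ℝ] E (b i)) (α : Fin N → ℝ)
    (B : ∀ i, Set (E (k i))) : Prop where
  pr : ∀ i, PR κ (ψ i)
  one : 1 ≤ κ
  nn : 0 ≤ Γ
  pos : ∀ i, 0 < α i
  le : ∀ i, α i ≤ 1
  rnk : ∀ i, Q i ≠ 0 → Ok κ Γ Q (fun j => α j * k j) i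
  comp : ∀ i, IsCompact (B i)
  conv : ∀ i, Convex ℝ (B i)
  int : ∀ i, (interior (B i)).Nonempty
  symm : ∀ i, ∀ x ∈ B i, -x ∈ B i
  poi : ∀ i, AP A (Pool.Agent.R751.MB.ind (B i))

/-- the family -/
def qF (ψ : ∀ i, E (b i) → ℝ) (Q : ∀ i, E m →ₗ[ℝ] E (b i)) (α : Fin N → ℝ)
    (B : ∀ i, Set (E (k i))) : ∀ i, E m → Set (E (k i)) := fun i => qf (ψ i) (Q i) (α i) (B i)

open Classical in
/-- the exponents -/
noncomputable def be (k : Fin N → ℕ) (Q : ∀ i, E m →ₗ[ℝ] E (b i)) (α : Fin N → ℝ) (i : Fin N) : ℝ :=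
  if Q i = 0 then 3 else α i * k i

theorem QD.gf (h : QD A κ Γ ψ Q α B) (i : Fin N) : GF A (qF ψ Q α B i) :=
  qf_gf (h.pr i) (h.pos i) (h.le i) (h.comp i) (h.conv i) (h.int i) (h.symm i) (h.poi i)

/-- the kernels have intersection zero -/
theorem QD.ker (_h : QD A κ Γ ψ Q α B) {φ : (∀ i, E (k i)) ≃ₗ[ℝ] E D}
    (hK : CB (rk φ (qF ψ Q α B))) : ∀ x, (∀ i, Q i x = 0) → x = 0 := by
  intro x hx
  have hne : (rk φ (qF ψ Q α B)).Nonempty := by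
    by_contra hc
    rw [not_nonempty_iff_eq_empty] at hc
    have := hK.pos
    rw [hc, measure_empty] at this
    exact lt_irrefl _ this
  obtain ⟨z, hz⟩ := hne
  obtain ⟨R, hR⟩ : ∃ R : ℝ, ∀ z ∈ rk φ (qF ψ Q α B), ‖z‖ ≤ R :=
    hK.comp.isBounded.exists_norm_le
  by_contra hxne
  have hxn : 0 < ‖x‖ := norm_pos_iff.2 hxne
  obtain ⟨c, hc⟩ : ∃ c : ℝ, c = (R + ‖z.2‖ + 1) / ‖x‖ := ⟨_, rfl⟩
  have hmem : (z.1, z.2 + c • x) ∈ rk φ (qF ψ Q α B) := by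
    intro i
    have e1 : Q i (z.2 + c • x) = Q i z.2 := by
      rw [map_add, map_smul, hx, smul_zero, add_zero]
    obtain ⟨h1, h2⟩ : ψ i (Q i z.2) ≤ 1 ∧
      φ.symm z.1 i ∈ (ph (ψ i) (Q i z.2) ^ α i) • B i := hz i
    refine ⟨?_, ?_⟩
    · show ψ i (Q i (z.2 + c • x)) ≤ 1
      rw [e1]
      exact h1
    · show φ.symm z.1 i ∈ (ph (ψ i) (Q i (z.2 + c • x)) ^ α i) • B i
      rw [e1]
      exact h2
  have h1 := (norm_snd_le _).trans (hR _ hmem)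
  have hR0 : 0 ≤ R := (norm_nonneg _).trans (hR z hz)
  have h2 : ‖c • x‖ = R + ‖z.2‖ + 1 := by
    rw [hc, norm_smul, Real.norm_eq_abs, abs_of_nonneg (by positivity),
      div_mul_cancel₀ _ hxn.ne']
  have h3 : ‖c • x‖ ≤ ‖z.2 + c • x‖ + ‖z.2‖ := by
    have := norm_sub_le (z.2 + c • x) z.2
    rwa [add_sub_cancel_left] at this
  linarith

theorem QD.two (h : QD A κ Γ ψ Q α B) (i : Fin N) (h0 : Q i ≠ 0) : 1 < α i * k i := by
  rcases h.rnk i h0 with h1 | h1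
  · have h2 : 1 ≤ Module.finrank ℝ (LinearMap.range (Q i)) := by
      rw [Nat.one_le_iff_ne_zero]
      intro h3
      rw [Submodule.finrank_eq_zero, LinearMap.range_eq_bot] at h3
      exact h0 h3
    have h3 : (1 : ℝ) ≤ Module.finrank ℝ (LinearMap.range (Q i)) := by exact_mod_cast h2
    have h4 := h.nn
    by_contra hc
    push Not at hc
    nlinarith
  · linarith [h1.1]

theorem QD.hy (h : QD A κ Γ ψ Q α B) (hk : ∀ x, (∀ i, Q i x = 0) → x = 0) :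
    Hy κ Γ ψ Q (be k Q α) := by
  have hbe : ∀ i, Q i ≠ 0 → be k Q α i = α i * k i := fun i h0 => by
    unfold be
    rw [if_neg h0]
  refine ⟨h.pr, h.one, h.nn, fun i => ?_, fun i => ?_, hk⟩
  · by_cases h0 : Q i = 0
    · unfold be
      rw [if_pos h0]
      norm_num
    · rw [hbe i h0]
      exact h.two i h0
  · by_cases h0 : Q i = 0
    · left
      unfold be
      rw [if_pos h0, h0, LinearMap.range_zero, finrank_bot]
      have := h.nn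
      push_cast
      nlinarith
    · rcases h.rnk i h0 with h1 | ⟨h1, h2⟩
      · left
        rw [hbe i h0]
        exact h1
      · right
        rw [hbe i h0]
        refine ⟨h1, fun x => (h2 x).trans (le_of_eq ?_)⟩
        refine Finset.sum_congr rfl fun j _ => ?_
        by_cases h3 : Q j = 0
        · rw [h3]
          simp
        · rw [hbe j h3]

/-- the density of the marginal -/
theorem QD.rv (h : QD A κ Γ ψ Q α B) (φ : (∀ i, E (k i)) ≃ₗ[ℝ] E D) : ∃ C : ℝ, 0 < C ∧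
    ∀ t : E m, Rv (rk φ (qF ψ Q α B)) t = C * wt ψ Q (be k Q α) t := by
  obtain ⟨C, hC, hR⟩ := rv_eq (F := qF ψ Q α B) φ
  have hV : ∀ i, 0 < (volume (B i)).toReal := fun i =>
    ENNReal.toReal_pos (lt_of_lt_of_le (isOpen_interior.measure_pos volume (h.int i))
      (measure_mono interior_subset)).ne' (h.comp i).measure_lt_top.ne
  refine ⟨C * ∏ i, (volume (B i)).toReal, mul_pos hC (Finset.prod_pos fun i _ => hV i),
    fun t => ?_⟩
  rw [hR t, mul_assoc]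
  congr 1
  unfold wt
  rw [← Finset.prod_mul_distrib]
  refine Finset.prod_congr rfl fun i _ => ?_
  rw [mul_comm]
  unfold be
  split_ifs with h0
  · exact qf_vol0 (h.pr i) h0 3 t
  · exact qf_vol (ψ := ψ i) (Q := Q i) (α := α i) (B := B i) (by linarith [h.two i h0]) t

/-- the average of the squares of the radii -/
theorem QD.er (h : QD A κ Γ ψ Q α B) (hk : ∀ x, (∀ i, Q i x = 0) → x = 0) (i : Fin N) :
    1 ≤ (3 + Γ) ^ 2 * EW (wt ψ Q (be k Q α)) fun t => (ph (ψ i) (Q i t) ^ α i) ^ 2 := by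
  have hH := h.hy hk
  have hβ0 : ∀ i, 0 < be k Q α i := fun i => by linarith [hH.two i]
  have hI := wt_pos h.pr hβ0 hk
  have h2 := hH.sq_low i
  have hQc : Continuous (Q i) := (Q i).continuous_of_finiteDimensional
  have hΓ : 0 ≤ (3 + Γ) ^ 2 := sq_nonneg _
  unfold EW
  rw [mul_div_assoc', le_div_iff₀ hI, one_mul]
  refine h2.trans (mul_le_mul_of_nonneg_left ?_ hΓ)
  have i2 : Integrable fun x => ph (ψ i) (Q i x) ^ 2 * wt ψ Q (be k Q α) x :=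
    wt_int (f := fun x => ph (ψ i) (Q i x) ^ 2) h.pr hβ0 hk (((h.pr i).ph_cont.comp hQc).pow 2)
  have i3 : Integrable fun x => (ph (ψ i) (Q i x) ^ α i) ^ 2 * wt ψ Q (be k Q α) x :=
    wt_int (f := fun x => (ph (ψ i) (Q i x) ^ α i) ^ 2) h.pr hβ0 hk
      ((((h.pr i).ph_cont.comp hQc).rpow_const fun _ => Or.inr (h.pos i).le).pow 2)
  refine integral_mono i2 i3 fun x => ?_
  show ph (ψ i) (Q i x) ^ 2 * wt ψ Q (be k Q α) x ≤
    (ph (ψ i) (Q i x) ^ α i) ^ 2 * wt ψ Q (be k Q α) x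
  refine mul_le_mul_of_nonneg_right (pow_le_pow_left₀ (ph_nonneg _) ?_ 2) (wt_nonneg _)
  have := Real.rpow_le_rpow_of_exponent_ge' (ph_nonneg (ψ := ψ i) (Q i x))
    ((h.pr i).ph_le_one _) (h.pos i).le (h.le i)
  rwa [Real.rpow_one] at this

/-- second moments of a block of the body -/
theorem QD.blk (h : QD A κ Γ ψ Q α B) (φ : (∀ i, E (k i)) ≃ₗ[ℝ] E D)
    (hK : CB (rk φ (qF ψ Q α B))) (i : Fin N) (L : E (k i) →ₗ[ℝ] ℝ) :
    ∫ x, L x ^ 2 ∂(un (B i)) ≤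
      (3 + Γ) ^ 2 * ∫ z, L (φ.symm z.1 i) ^ 2 ∂(un (rk φ (qF ψ Q α B))) := by
  have hp := bl_prob hK
  have hc := gi_cont (m := m) φ i L
  rw [dis hK hc fun z => sq_nonneg _]
  obtain ⟨c, hcd⟩ : ∃ c : ℝ, c = ∫ x, L x ^ 2 ∂(un (B i)) := ⟨_, rfl⟩
  have hc0 : 0 ≤ c := by rw [hcd]; exact integral_nonneg fun x => sq_nonneg _
  have h1 : ∫ t, mf (rk φ (qF ψ Q α B)) (fun z => L (φ.symm z.1 i) ^ 2) t
      ∂(bl (rk φ (qF ψ Q α B))) =
      ∫ t, (ph (ψ i) (Q i t) ^ α i) ^ 2 * c ∂(bl (rk φ (qF ψ Q α B))) := by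
    refine integral_congr_ae ?_
    filter_upwards [ae_pos hK] with t ht
    have h2 : mf (rk φ (qF ψ Q α B)) (fun z => L (φ.symm z.1 i) ^ 2) t =
        ∫ x, L x ^ 2 ∂(un (qF ψ Q α B i t)) := blk_mom h.gf φ t ht i L
    rw [h2, hcd]
    exact qf_mom (fac_ne φ t ht i) L
  obtain ⟨C, hC, hR⟩ := h.rv φ
  have hRf : Rv (rk φ (qF ψ Q α B)) = fun t => C * wt ψ Q (be k Q α) t := funext hR
  have h2 := h.er (h.ker hK) i
  rw [h1, integral_mul_const, bl_int hK, hRf, ew_smul hC.ne', ← hcd]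
  nlinarith

/-- the covariances of the fibres -/
theorem QD.qc (h : QD A κ Γ ψ Q α B) (φ : (∀ i, E (k i)) ≃ₗ[ℝ] E D)
    (hK : CB (rk φ (qF ψ Q α B))) :
    QC ((3 + Γ) ^ 2) (rk φ (qF ψ Q α B)) fun _ => (3 + Γ) ^ 2 := by
  have hp := bl_prob hK
  refine ⟨measurable_const, fun _ => sq_nonneg _, integrable_const _, ?_, fun t ht θ => ?_⟩
  · simp
  · have hc : Continuous fun z : E D × E m => ⟪z.1, θ⟫_ℝ ^ 2 := by fun_prop
    have hE : ∫ z, ⟪z.1, θ⟫_ℝ ^ 2 ∂(un (rk φ (qF ψ Q α B))) =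
        ∑ i, ∫ z, lf φ θ i (φ.symm z.1 i) ^ 2 ∂(un (rk φ (qF ψ Q α B))) := by
      rw [dis hK hc fun z => sq_nonneg _]
      have h1 : ∫ t, mf (rk φ (qF ψ Q α B)) (fun z => ⟪z.1, θ⟫_ℝ ^ 2) t
          ∂(bl (rk φ (qF ψ Q α B))) =
          ∫ t, ∑ i, mf (rk φ (qF ψ Q α B)) (fun z => lf φ θ i (φ.symm z.1 i) ^ 2) t
            ∂(bl (rk φ (qF ψ Q α B))) := by
        refine integral_congr_ae ?_
        filter_upwards [ae_pos hK] with t' ht'
        show ∫ x, ⟪x, θ⟫_ℝ ^ 2 ∂(un (sl (rk φ (qF ψ Q α B)) t')) = _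
        rw [fib_mom h.gf φ t' ht' θ]
        exact Finset.sum_congr rfl fun i _ => (blk_mom h.gf φ t' ht' i (lf φ θ i)).symm
      rw [h1, integral_finsetSum _ fun i _ => mf_int hK (gi_cont φ i (lf φ θ i))
        fun z => sq_nonneg _]
      exact Finset.sum_congr rfl fun i _ => (dis hK (gi_cont φ i (lf φ θ i))
        fun z => sq_nonneg _).symm
    rw [fib_mom h.gf φ t ht θ, hE, Finset.mul_sum]
    refine Finset.sum_le_sum fun i _ => ?_
    have h1 : ∫ x, lf φ θ i x ^ 2 ∂(un (qF ψ Q α B i t)) =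
        (ph (ψ i) (Q i t) ^ α i) ^ 2 * ∫ x, lf φ θ i x ^ 2 ∂(un (B i)) :=
      qf_mom (fac_ne φ t ht i) _
    rw [h1]
    refine le_trans ?_ (h.blk φ hK i (lf φ θ i))
    have h2 : (ph (ψ i) (Q i t) ^ α i) ^ 2 ≤ 1 :=
      pow_le_one₀ (Real.rpow_nonneg (ph_nonneg _) _)
        (Real.rpow_le_one (ph_nonneg _) ((h.pr i).ph_le_one _) (h.pos i).le)
    have h3 : 0 ≤ ∫ x, lf φ θ i x ^ 2 ∂(un (B i)) := integral_nonneg fun x => sq_nonneg _
    nlinarith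

/-- **the class contains the bodies fibred over uniformly convex and smooth constraints** -/
theorem quad_ct (c0 κ Γ : ℝ) (hc0 : 0 < c0) : ∃ A : ℝ → ℝ,
    ∀ (d r n N m : ℕ) (k b : Fin N → ℕ) (e : ((∀ i, E (k i)) × E m) ≃ₗ[ℝ] E n)
    (ψ : ∀ i, E (b i) → ℝ) (Q : ∀ i, E m →ₗ[ℝ] E (b i)) (α : Fin N → ℝ)
    (B : ∀ i, Set (E (k i))), QD c0 κ Γ ψ Q α B →
    IsCompact (e '' rb (qF ψ Q α B)) → (interior (e '' rb (qF ψ Q α B))).Nonempty →
    Ct A ((3 + Γ) ^ 2) d r 1 n (e '' rb (qF ψ Q α B)) := by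
  obtain ⟨A1, hA1, H1⟩ := ap_km c0 hc0
  refine ⟨fun δ => max (A1 δ) (578 * κ ^ 2 * (3 + Γ) ^ 2), fun d r n N m k b e ψ Q α B h hc hi => ?_⟩
  obtain ⟨D, hD⟩ : ∃ D, D = Module.finrank ℝ (∀ i : Fin N, E (k i)) := ⟨_, rfl⟩
  let φ : (∀ i, E (k i)) ≃ₗ[ℝ] E D := LinearEquiv.ofFinrankEq _ _ (by simp [hD])
  let e' : (E D × E m) ≃ₗ[ℝ] E n :=
    (LinearEquiv.prodCongr φ.symm (LinearEquiv.refl ℝ (E m))).trans e
  have he : ∀ x t, e' (x, t) = e (φ.symm x, t) := fun x t => rfl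
  have hpre : e' ⁻¹' (e '' rb (qF ψ Q α B)) = rk φ (qF ψ Q α B) := by
    ext z
    obtain ⟨x, t⟩ := z
    rw [mem_preimage, he]
    constructor
    · rintro ⟨w, hw, hwe⟩
      rw [e.injective hwe] at hw
      exact hw
    · intro hz
      exact ⟨_, hz, rfl⟩
  have hcv : Convex ℝ (e '' rb (qF ψ Q α B)) := (rb_convex h.gf).linear_image e.toLinearMap
  have hCB : CB (rk φ (qF ψ Q α B)) := by
    rw [← hpre]
    exact cb_pre e' hc hcv hi
  refine .cent 0 D m n _ e' hc hcv hi ?_ ?_ ?_ ?_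
  · rw [hpre]
    intro t ht
    have hap := ap_fib h.gf hc0.le φ t ht
    refine .base _ _ (sl_comp hCB t) (sl_conv hCB t) (int_of_vol (sl_conv hCB t) ht)
      fun δ hδ => ?_
    exact km_mono (le_max_left _ _) le_rfl (H1 D _ (sl_comp hCB t) (sl_conv hCB t)
      (int_of_vol (sl_conv hCB t) ht) hap δ hδ)
  · rw [hpre]
    exact fun t ht θ => centred h.gf φ t θ
  · rw [hpre]
    exact ⟨_, h.qc φ hCB⟩
  · rw [hpre]
    intro δ hδ
    obtain ⟨C, hC, hR⟩ := h.rv φ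
    exact km_mono (le_max_right _ _) le_rfl ((h.hy (h.ker hCB)).km hCB hC hR hδ.le)

end body

end Pool.Agent.W5h33.KQ
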